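import Pool.Agent.Helper67.DO.StmtsD

/-!
# Module D9: Stokes for products of functions on the cube
-/

set_option autoImplicit false

namespace Pool.Agent.Helper67.DO

open scoped BigOperators Real
open MeasureTheory

/-- derivative of a determinant, column by column -/
theorem d9_det_deriv {n : ℕ} {E : Type*} [NormedAddCommGroup E] [NormedSpace ℝ E]
    (M : E → Matrix (Fin n) (Fin n) ℂ) (M' : Fin n → Fin n → E →L[ℝ] ℂ) (x : E)
    (hM : ∀ c b, HasFDerivAt (fun u => M u c b) (M' c b) x) :
    ∃ L : E →L[ℝ] ℂ, HasFDerivAt (fun u => (M u).det) L x ∧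
      ∀ v, L v = ∑ b0, ((M x).updateCol b0 (fun c => M' c b0 v)).det := by
  classical
  refine ⟨∑ σ : Equiv.Perm (Fin n), (((Equiv.Perm.sign σ : ℤ) : ℂ)) •
    ∑ b0, (∏ b ∈ Finset.univ.erase b0, M x (σ b) b) • M' (σ b0) b0, ?_, ?_⟩
  · simp only [Matrix.det_apply']
    refine HasFDerivAt.fun_sum fun σ _ => ?_
    refine HasFDerivAt.const_mul ?_ _
    exact HasFDerivAt.finsetProd (fun i _ => hM (σ i) i)
  · intro v
    simp only [Matrix.det_apply', _root_.sum_apply, _root_.smul_apply,
      smul_eq_mul]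
    rw [Finset.sum_comm]
    refine Finset.sum_congr rfl fun σ _ => ?_
    rw [← Finset.mul_sum]
    congr 1
    refine Finset.sum_congr rfl fun b0 _ => ?_
    rw [← Finset.mul_prod_erase Finset.univ _ (Finset.mem_univ b0), mul_comm]
    congr 1
    · simp
    · refine Finset.prod_congr rfl fun b hb => ?_
      rw [Matrix.updateCol_ne (Finset.ne_of_mem_erase hb)]

/-- the auxiliary matrix -/
noncomputable def d9_N {j : ℕ} (A : Fin (j + 1) → Fin j → ℂ) (b0 : Fin j) (p q : Fin (j + 1)) :
    Matrix (Fin (j + 1)) (Fin (j + 1)) ℂ :=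
  Matrix.of fun a b => (Fin.cons (if a = p then 1 else 0)
    (Function.update (A a) b0 (if a = q then 1 else 0)) : Fin (j + 1) → ℂ) b

theorem d9_N_swap {j : ℕ} (A : Fin (j + 1) → Fin j → ℂ) (b0 : Fin j) (p q : Fin (j + 1)) :
    (d9_N A b0 q p).det = -(d9_N A b0 p q).det := by
  have h : d9_N A b0 q p = (d9_N A b0 p q).submatrix id (Equiv.swap 0 b0.succ) := by
    ext a b
    simp only [d9_N, Matrix.of_apply, Matrix.submatrix_apply, id_eq]
    refine Fin.cases ?_ (fun b => ?_) b
    · rw [Equiv.swap_apply_left, Fin.cons_zero, Fin.cons_succ, Function.update_self]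
    · by_cases hb : b = b0
      · subst hb
        rw [Equiv.swap_apply_right, Fin.cons_zero, Fin.cons_succ, Function.update_self]
      · rw [Equiv.swap_apply_of_ne_of_ne (Fin.succ_ne_zero b)
          (fun h => hb (Fin.succ_injective _ h)), Fin.cons_succ, Fin.cons_succ,
          Function.update_of_ne hb, Function.update_of_ne hb]
  rw [h, Matrix.det_permute', Equiv.Perm.sign_swap (Fin.succ_ne_zero b0).symm]
  simp

theorem d9_N_det {j : ℕ} (A : Fin (j + 1) → Fin j → ℂ) (b0 : Fin j) (p q : Fin (j + 1)) :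
    (d9_N A b0 p q).det = (-1 : ℂ) ^ (p : ℕ) *
      (Matrix.updateCol (Matrix.of fun c b => A (p.succAbove c) b) b0
        (fun c => if p.succAbove c = q then 1 else 0)).det := by
  rw [Matrix.det_succ_column_zero, Finset.sum_eq_single p]
  · have h1 : d9_N A b0 p q p 0 = 1 := by
      show (if p = p then (1 : ℂ) else 0) = 1
      rw [if_pos rfl]
    have h2 : (d9_N A b0 p q).submatrix p.succAbove Fin.succ
        = Matrix.updateCol (Matrix.of fun c b => A (p.succAbove c) b) b0
          (fun c => if p.succAbove c = q then 1 else 0) := by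
      ext c b
      simp only [d9_N, Matrix.of_apply, Matrix.submatrix_apply, Fin.cons_succ,
        Matrix.updateCol_apply, Function.update_apply]
    rw [h1, h2, mul_one]
  · intro a _ ha
    have h1 : d9_N A b0 p q a 0 = 0 := by
      show (if a = p then (1 : ℂ) else 0) = 0
      rw [if_neg ha]
    rw [h1, mul_zero, zero_mul]
  · intro h
    exact absurd (Finset.mem_univ p) h

theorem d9_alg {j : ℕ} (A : Fin (j + 1) → Fin j → ℂ) (H : Fin (j + 1) → Fin (j + 1) → ℂ)
    (hH : ∀ a a', H a a' = H a' a) (b0 : Fin j) :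
    ∑ a : Fin (j + 1), (-1 : ℂ) ^ (a : ℕ) *
      (Matrix.updateCol (Matrix.of fun c b => A (a.succAbove c) b) b0
        (fun c => H a (a.succAbove c))).det = 0 := by
  have h1 : ∀ p : Fin (j + 1), (-1 : ℂ) ^ (p : ℕ) *
      (Matrix.updateCol (Matrix.of fun c b => A (p.succAbove c) b) b0
        (fun c => H p (p.succAbove c))).det = ∑ q, H p q * (d9_N A b0 p q).det := by
    intro p
    have h2 : (fun c => H p (p.succAbove c)) = ∑ q, H p q •
        (fun c : Fin j => if p.succAbove c = q then (1 : ℂ) else 0) := by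
      funext c
      simp
    rw [h2, ← Matrix.cramer_apply, map_sum, Finset.sum_apply, Finset.mul_sum]
    refine Finset.sum_congr rfl fun q _ => ?_
    rw [map_smul, Pi.smul_apply, smul_eq_mul, Matrix.cramer_apply, d9_N_det]
    ring
  have h3 : ∑ p, ∑ q, H p q * (d9_N A b0 p q).det
      = -∑ p, ∑ q, H p q * (d9_N A b0 p q).det := by
    conv_lhs => rw [Finset.sum_comm]
    rw [← Finset.sum_neg_distrib]
    refine Finset.sum_congr rfl fun p _ => ?_
    rw [← Finset.sum_neg_distrib]
    refine Finset.sum_congr rfl fun q _ => ?_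
    rw [hH q p, d9_N_swap A b0 p q]
    ring
  rw [Finset.sum_congr rfl fun p _ => h1 p]
  linear_combination (1 / 2 : ℂ) * h3

theorem st_D9 : ST_D9 := by
  intro j F hF
  classical
  let D : Fin (j + 1) → (Fin (j + 1) → ℝ) → ℂ := fun a u =>
    Matrix.det (Matrix.of fun (c b : Fin j) =>
      fderiv ℝ (F b.castSucc) u (Pi.single (a.succAbove c) 1))
  let G : Fin (j + 1) → (Fin (j + 1) → ℝ) → ℂ := fun a u =>
    (-1 : ℂ) ^ (a : ℕ) * (F (Fin.last j) u * D a u)
  have hA : ∀ (b : Fin (j + 1)) (v : Fin (j + 1) → ℝ),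
      ContDiff ℝ 1 (fun u => fderiv ℝ (F b) u v) := fun b v =>
    ((hF b).fderiv_right (by norm_num)).clm_apply contDiff_const
  have hD : ∀ a, ContDiff ℝ 1 (D a) := by
    intro a
    simp only [D, Matrix.det_apply', Matrix.of_apply]
    exact ContDiff.sum fun σ _ => contDiff_const.mul (contDiff_prod fun i _ => hA _ _)
  have hG : ∀ a, ContDiff ℝ 1 (G a) := fun a =>
    contDiff_const.mul (((hF _).of_le (by norm_num)).mul (hD a))
  have hpt : ∀ u, ∑ a, fderiv ℝ (G a) u (Pi.single a 1)
      = (-1 : ℂ) ^ j * Matrix.det (Matrix.of fun a b =>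
          fderiv ℝ (F b) u (Pi.single a (1 : ℝ))) := by
    intro u
    have hsym : ∀ b, IsSymmSndFDerivAt ℝ (F b) u := fun b =>
      (hF b).contDiffAt.isSymmSndFDerivAt (by simp)
    have hdd : ∀ (b : Fin (j + 1)) (v : Fin (j + 1) → ℝ),
        HasFDerivAt (fun u => fderiv ℝ (F b) u v)
          ((ContinuousLinearMap.apply ℝ ℂ v).comp (fderiv ℝ (fderiv ℝ (F b)) u)) u := by
      intro b v
      have h1 : HasFDerivAt (fderiv ℝ (F b)) (fderiv ℝ (fderiv ℝ (F b)) u) u :=
        (((hF b).fderiv_right (m := 1) (by norm_num)).differentiable (by norm_num) u).hasFDerivAt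
      exact (ContinuousLinearMap.apply ℝ ℂ v).hasFDerivAt.comp u h1
    have hone : ∀ a : Fin (j + 1), fderiv ℝ (G a) u (Pi.single a 1)
        = (-1 : ℂ) ^ (a : ℕ) * (fderiv ℝ (F (Fin.last j)) u (Pi.single a 1) * D a u)
          + F (Fin.last j) u * ∑ b0 : Fin j, (-1 : ℂ) ^ (a : ℕ) *
            (Matrix.updateCol (Matrix.of fun (c b : Fin j) =>
              fderiv ℝ (F b.castSucc) u (Pi.single (a.succAbove c) (1 : ℝ))) b0
              (fun c => fderiv ℝ (fderiv ℝ (F b0.castSucc)) u (Pi.single a 1)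
                (Pi.single (a.succAbove c) 1))).det := by
      intro a
      obtain ⟨L, hL, hLv⟩ := d9_det_deriv (fun u => Matrix.of fun (c b : Fin j) =>
        fderiv ℝ (F b.castSucc) u (Pi.single (a.succAbove c) (1 : ℝ)))
        (fun c b => (ContinuousLinearMap.apply ℝ ℂ (Pi.single (a.succAbove c) (1 : ℝ))).comp
          (fderiv ℝ (fderiv ℝ (F b.castSucc)) u)) u (fun c b => hdd b.castSucc _)
      have hlast : HasFDerivAt (F (Fin.last j)) (fderiv ℝ (F (Fin.last j)) u) u :=
        ((hF (Fin.last j)).differentiable (by norm_num) u).hasFDerivAt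
      have hGd := (hlast.mul hL).const_mul ((-1 : ℂ) ^ (a : ℕ))
      have hGd' : fderiv ℝ (G a) u = _ := hGd.fderiv
      rw [hGd', _root_.smul_apply, _root_.add_apply, _root_.smul_apply, _root_.smul_apply, hLv,
        ← Finset.mul_sum]
      simp only [smul_eq_mul, ContinuousLinearMap.comp_apply, ContinuousLinearMap.apply_apply, D]
      ring
    rw [Finset.sum_congr rfl fun a _ => hone a, Finset.sum_add_distrib, ← Finset.mul_sum,
      Finset.sum_comm]
    have hz : ∀ b0 : Fin j, ∑ a : Fin (j + 1), (-1 : ℂ) ^ (a : ℕ) *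
            (Matrix.updateCol (Matrix.of fun (c b : Fin j) =>
              fderiv ℝ (F b.castSucc) u (Pi.single (a.succAbove c) (1 : ℝ))) b0
              (fun c => fderiv ℝ (fderiv ℝ (F b0.castSucc)) u (Pi.single a 1)
                (Pi.single (a.succAbove c) 1))).det = 0 := by
      intro b0
      exact d9_alg (fun a b => fderiv ℝ (F b.castSucc) u (Pi.single a (1 : ℝ)))
        (fun a a' => fderiv ℝ (fderiv ℝ (F b0.castSucc)) u (Pi.single a 1) (Pi.single a' 1))
        (fun a a' => hsym b0.castSucc _ _) b0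
    rw [Finset.sum_congr rfl fun b0 _ => hz b0, Finset.sum_const_zero, mul_zero, add_zero,
      Matrix.det_succ_column _ (Fin.last j), Finset.mul_sum]
    refine Finset.sum_congr rfl fun a _ => ?_
    have hsub : (Matrix.of fun (a b : Fin (j + 1)) =>
          fderiv ℝ (F b) u (Pi.single a (1 : ℝ))).submatrix a.succAbove (Fin.last j).succAbove
        = Matrix.of fun (c b : Fin j) =>
          fderiv ℝ (F b.castSucc) u (Pi.single (a.succAbove c) (1 : ℝ)) := by
      ext c b
      simp [Fin.succAbove_last]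
    rw [hsub, Fin.val_last, Matrix.of_apply]
    have hs : (-1 : ℂ) ^ j * (-1 : ℂ) ^ j = 1 := by
      rw [← mul_pow]
      norm_num
    simp only [D]
    rw [pow_add]
    linear_combination (-(-1 : ℂ) ^ (a : ℕ) * (fderiv ℝ (F (Fin.last j)) u (Pi.single a 1) *
      Matrix.det (Matrix.of fun (c b : Fin j) =>
          fderiv ℝ (F b.castSucc) u (Pi.single (a.succAbove c) (1 : ℝ))))) * hs
  have key := integral_divergence_of_hasFDerivAt_off_countable' (0 : Fin (j + 1) → ℝ) 1
    zero_le_one G (fun a u => fderiv ℝ (G a) u) ∅ Set.countable_empty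
    (fun a => (hG a).continuous.continuousOn)
    (fun u _ a => ((hG a).differentiable (by norm_num) u).hasFDerivAt)
    (by
      refine ContinuousOn.integrableOn_compact isCompact_Icc (Continuous.continuousOn ?_)
      refine continuous_finsetSum _ fun a _ => ?_
      exact ((hG a).continuous_fderiv (by norm_num)).clm_apply continuous_const)
  have hkey2 : (∫ u in Set.Icc (0 : Fin (j + 1) → ℝ) 1,
      ∑ a, fderiv ℝ (G a) u (Pi.single a 1)) = (-1 : ℂ) ^ j * cub (j + 1) (fun u =>
        Matrix.det (Matrix.of fun a b => fderiv ℝ (F b) u (Pi.single a 1))) := by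
    unfold cub
    rw [← integral_const_mul]
    exact integral_congr_ae (Filter.Eventually.of_forall fun u => hpt u)
  have hface : ∀ (a : Fin (j + 1)) (t : ℝ),
      (∫ x in Set.Icc (0 : Fin j → ℝ) 1, G a (a.insertNth t x)) = (-1 : ℂ) ^ (a : ℕ) *
      cub j (fun u' => F (Fin.last j) (a.insertNth t u') * Matrix.det (Matrix.of fun (c b : Fin j) =>
          fderiv ℝ (F b.castSucc) (a.insertNth t u') (Pi.single (a.succAbove c) 1))) := by
    intro a t
    unfold cub
    rw [← integral_const_mul]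
  have key3 : (-1 : ℂ) ^ j * cub (j + 1) (fun u =>
        Matrix.det (Matrix.of fun a b => fderiv ℝ (F b) u (Pi.single a 1)))
      = ∑ a : Fin (j + 1), ((∫ x in Set.Icc (0 : Fin j → ℝ) 1, G a (a.insertNth 1 x)) -
        ∫ x in Set.Icc (0 : Fin j → ℝ) 1, G a (a.insertNth 0 x)) := by
    rw [← hkey2]
    exact key
  have hs : (-1 : ℂ) ^ j * (-1 : ℂ) ^ j = 1 := by
    rw [← mul_pow]
    norm_num
  have key4 : ∑ a : Fin (j + 1), ((∫ x in Set.Icc (0 : Fin j → ℝ) 1, G a (a.insertNth 1 x)) -
        ∫ x in Set.Icc (0 : Fin j → ℝ) 1, G a (a.insertNth 0 x))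
      = ∑ a : Fin (j + 1), (-1 : ℂ) ^ (a : ℕ) *
      (cub j (fun u' => F (Fin.last j) (a.insertNth 1 u') * Matrix.det (Matrix.of fun (c b : Fin j) =>
          fderiv ℝ (F b.castSucc) (a.insertNth 1 u') (Pi.single (a.succAbove c) 1)))
      - cub j (fun u' => F (Fin.last j) (a.insertNth 0 u') * Matrix.det (Matrix.of fun (c b : Fin j) =>
          fderiv ℝ (F b.castSucc) (a.insertNth 0 u') (Pi.single (a.succAbove c) 1)))) := by
    refine Finset.sum_congr rfl fun a _ => ?_
    rw [hface a 1, hface a 0]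
    ring
  rw [← key4, ← key3, ← mul_assoc, hs, one_mul]

end Pool.Agent.Helper67.DO
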