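import Pool.Agent.Helper67.DO.BaseD
import Pool.Agent.Helper89.DO.SCV

/-!
# Module E10: the classes are closed functionals
-/

set_option autoImplicit false

namespace Pool.Agent.Helper67.DO

open scoped BigOperators Real
open MeasureTheory

noncomputable section

/-! ### linearity of partial derivatives -/

theorem e10_pd_add {n : ℕ} {U : Set (Fin n → ℂ)} (hU : IsOpen U) {F G : (Fin n → ℂ) → ℂ}
    (hF : DifferentiableOn ℂ F U) (hG : DifferentiableOn ℂ G U) (j : Fin n) {z : Fin n → ℂ}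
    (hz : z ∈ U) : pd j (fun z => F z + G z) z = pd j F z + pd j G z := by
  have hFG : DifferentiableOn ℂ (fun z => F z + G z) U := hF.add hG
  rw [scv_pd_eq U hU _ hFG j z hz, scv_pd_eq U hU F hF j z hz,
    scv_pd_eq U hU G hG j z hz]
  have h := fderiv_fun_add ((hF z hz).differentiableAt (hU.mem_nhds hz))
    ((hG z hz).differentiableAt (hU.mem_nhds hz))
  rw [h]
  rfl

theorem e10_pd_smul {n : ℕ} (c : ℂ) (F : (Fin n → ℂ) → ℂ) (j : Fin n) :
    pd j (fun z => c * F z) = fun z => c * pd j F z := by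
  funext z
  unfold pd
  exact deriv_const_mul_field c

theorem e10_pd_add3 {n : ℕ} {U : Set (Fin n → ℂ)} (hU : IsOpen U) {F G : (Fin n → ℂ) → ℂ}
    (hF : DifferentiableOn ℂ F U) (hG : DifferentiableOn ℂ G U) (i j k : Fin n) {z : Fin n → ℂ}
    (hz : z ∈ U) : pd i (pd j (pd k (fun z => F z + G z))) z
      = pd i (pd j (pd k F)) z + pd i (pd j (pd k G)) z := by
  have hkF := scv_pd_diff U hU F hF k
  have hkG := scv_pd_diff U hU G hG k
  have hjF := scv_pd_diff U hU _ hkF j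
  have hjG := scv_pd_diff U hU _ hkG j
  rw [← e10_pd_add hU hjF hjG i hz]
  apply scv_pd_congr U hU _ _ _ i z hz
  intro w hw
  rw [← e10_pd_add hU hkF hkG j hw]
  apply scv_pd_congr U hU _ _ _ j w hw
  intro u hu
  exact e10_pd_add hU hF hG k hu

/-! ### the integrands -/

/-- the diagonal point -/
def e10_P {q : ℕ} (v : Fin q → ℂ) (x : ℝ) : Fin (q + 2) → ℂ :=
  Fin.cons (x : ℂ) (Fin.cons (x : ℂ) v : Fin (q + 1) → ℂ)

def e10_Q {q : ℕ} (v : Fin q → ℂ) (x : ℝ) : Fin (q + 3) → ℂ :=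
  Fin.cons (x : ℂ) (Fin.cons (x : ℂ) (Fin.cons (x : ℂ) v : Fin (q + 1) → ℂ) : Fin (q + 2) → ℂ)

theorem e10_real_mem {s : ℝ} (hs : 0 < s) (x : ℝ) : (x : ℂ) ∈ St s := by
  show |((x : ℂ)).im| < s
  simpa using hs

theorem e10_cons_mem {q : ℕ} {U : Set ℂ} {a : ℂ} {v : Fin q → ℂ} (ha : a ∈ U) (hv : v ∈ PU q U) :
    (Fin.cons a v : Fin (q + 1) → ℂ) ∈ PU (q + 1) U := by
  intro i
  refine Fin.cases ?_ (fun i => ?_) i
  · exact ha
  · exact hv i

theorem e10_P_mem {q : ℕ} {s : ℝ} (hs : 0 < s) {v : Fin q → ℂ} (hv : v ∈ PU q (St s)) (x : ℝ) :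
    e10_P v x ∈ PU (q + 2) (St s) :=
  e10_cons_mem (e10_real_mem hs x) (e10_cons_mem (e10_real_mem hs x) hv)

theorem e10_Q_mem {q : ℕ} {s : ℝ} (hs : 0 < s) {v : Fin q → ℂ} (hv : v ∈ PU q (St s)) (x : ℝ) :
    e10_Q v x ∈ PU (q + 3) (St s) :=
  e10_cons_mem (e10_real_mem hs x) (e10_cons_mem (e10_real_mem hs x)
    (e10_cons_mem (e10_real_mem hs x) hv))

theorem e10_P_cont {q : ℕ} (v : Fin q → ℂ) : Continuous (e10_P v) := by
  refine continuous_pi fun i => ?_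
  refine Fin.cases ?_ (fun i => ?_) i
  · exact Complex.continuous_ofReal
  · refine Fin.cases ?_ (fun i => ?_) i
    · exact Complex.continuous_ofReal
    · exact continuous_const

theorem e10_Q_cont {q : ℕ} (v : Fin q → ℂ) : Continuous (e10_Q v) := by
  refine continuous_pi fun i => ?_
  refine Fin.cases ?_ (fun i => ?_) i
  · exact Complex.continuous_ofReal
  · refine Fin.cases ?_ (fun i => ?_) i
    · exact Complex.continuous_ofReal
    · refine Fin.cases ?_ (fun i => ?_) i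
      · exact Complex.continuous_ofReal
      · exact continuous_const

theorem e10_pd_cons0 {n : ℕ} (F : (Fin (n + 1) → ℂ) → ℂ) (a : ℂ) (v : Fin n → ℂ) :
    deriv (fun t => F (Fin.cons t v)) a = pd 0 F (Fin.cons a v) := by
  unfold pd
  congr 1
  funext t
  rw [Fin.update_cons_zero]

theorem e10_pd_cons1 {n : ℕ} (F : (Fin (n + 2) → ℂ) → ℂ) (a b : ℂ) (v : Fin n → ℂ) :
    deriv (fun t => F (Fin.cons a (Fin.cons t v : Fin (n + 1) → ℂ))) b
      = pd 1 F (Fin.cons a (Fin.cons b v : Fin (n + 1) → ℂ)) := by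
  unfold pd
  congr 1
  funext t
  congr 1
  rw [show (1 : Fin (n + 2)) = Fin.succ 0 from rfl, ← Fin.cons_update, Fin.update_cons_zero]

theorem e10_pd_cons2 {n : ℕ} (F : (Fin (n + 3) → ℂ) → ℂ) (a b c : ℂ) (v : Fin n → ℂ) :
    deriv (fun t => F (Fin.cons a (Fin.cons b (Fin.cons t v : Fin (n + 1) → ℂ) :
      Fin (n + 2) → ℂ))) c
      = pd 2 F (Fin.cons a (Fin.cons b (Fin.cons c v : Fin (n + 1) → ℂ) : Fin (n + 2) → ℂ)) := by
  unfold pd
  congr 1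
  funext t
  congr 1
  rw [show (2 : Fin (n + 3)) = Fin.succ (Fin.succ 0) from rfl, ← Fin.cons_update,
    ← Fin.cons_update, Fin.update_cons_zero]

theorem e10_ec_eq (q : ℕ) (F : (Fin (q + 2) → ℂ) → ℂ) (v : Fin q → ℂ) :
    ec q F v = ∫ x in (0 : ℝ)..1, pd 1 F (e10_P v x) := by
  unfold ec
  refine intervalIntegral.integral_congr fun x _ => ?_
  exact e10_pd_cons1 F x x v

theorem e10_gc_eq (q : ℕ) (F : (Fin (q + 2) → ℂ) → ℂ) (v : Fin q → ℂ) :
    gc q F v = ∫ x in (0 : ℝ)..1, pd 0 (pd 1 (pd 1 F)) (e10_P v x) := by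
  unfold gc
  refine intervalIntegral.integral_congr fun x _ => ?_
  have h1 : (fun a : ℂ => iteratedDeriv 2
      (fun t : ℂ => F (Fin.cons a (Fin.cons t v : Fin (q + 1) → ℂ))) (x : ℂ))
      = fun a : ℂ => pd 1 (pd 1 F) (Fin.cons a (Fin.cons (x : ℂ) v : Fin (q + 1) → ℂ)) := by
    funext a
    rw [iteratedDeriv_succ, iteratedDeriv_one]
    have h2 : deriv (fun t : ℂ => F (Fin.cons a (Fin.cons t v : Fin (q + 1) → ℂ)))
        = fun t => pd 1 F (Fin.cons a (Fin.cons t v : Fin (q + 1) → ℂ)) := by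
      funext t
      exact e10_pd_cons1 F a t v
    rw [h2]
    exact e10_pd_cons1 (pd 1 F) a x v
  show deriv (fun a : ℂ => iteratedDeriv 2
      (fun t : ℂ => F (Fin.cons a (Fin.cons t v : Fin (q + 1) → ℂ))) (x : ℂ)) (x : ℂ) = _
  rw [h1]
  exact e10_pd_cons0 (pd 1 (pd 1 F)) x _

theorem e10_oc_eq (q : ℕ) (F : (Fin (q + 3) → ℂ) → ℂ) (v : Fin q → ℂ) :
    oc q F v = ∫ x in (0 : ℝ)..1, pd 1 (pd 2 (pd 2 F)) (e10_Q v x) := by
  unfold oc
  refine intervalIntegral.integral_congr fun x _ => ?_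
  have h1 : (fun a : ℂ => iteratedDeriv 2
      (fun t : ℂ => F (Fin.cons (x : ℂ) (Fin.cons a (Fin.cons t v : Fin (q + 1) → ℂ) :
        Fin (q + 2) → ℂ))) (x : ℂ))
      = fun a : ℂ => pd 2 (pd 2 F) (Fin.cons (x : ℂ) (Fin.cons a
        (Fin.cons (x : ℂ) v : Fin (q + 1) → ℂ) : Fin (q + 2) → ℂ)) := by
    funext a
    rw [iteratedDeriv_succ, iteratedDeriv_one]
    have h2 : deriv (fun t : ℂ => F (Fin.cons (x : ℂ) (Fin.cons a
        (Fin.cons t v : Fin (q + 1) → ℂ) : Fin (q + 2) → ℂ)))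
        = fun t => pd 2 F (Fin.cons (x : ℂ) (Fin.cons a
          (Fin.cons t v : Fin (q + 1) → ℂ) : Fin (q + 2) → ℂ)) := by
      funext t
      exact e10_pd_cons2 F x a t v
    rw [h2]
    exact e10_pd_cons2 (pd 2 F) x a x v
  show deriv (fun a : ℂ => iteratedDeriv 2
      (fun t : ℂ => F (Fin.cons (x : ℂ) (Fin.cons a (Fin.cons t v : Fin (q + 1) → ℂ) :
        Fin (q + 2) → ℂ))) (x : ℂ)) (x : ℂ) = _
  rw [h1]
  exact e10_pd_cons1 (pd 2 (pd 2 F)) x x _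

theorem e10_int {n : ℕ} {U : Set (Fin n → ℂ)} {H : (Fin n → ℂ) → ℂ} (hH : DifferentiableOn ℂ H U)
    {P : ℝ → Fin n → ℂ} (hP : Continuous P) (hPU : ∀ x, P x ∈ U) :
    IntervalIntegrable (fun x => H (P x)) volume 0 1 := by
  apply Continuous.intervalIntegrable
  exact hH.continuousOn.comp_continuous hP hPU

/-! ### linearity of the contractions -/

theorem e10_ec_add {q : ℕ} {s : ℝ} (hs : 0 < s) {F G : (Fin (q + 2) → ℂ) → ℂ}
    (hF : BO (q + 2) (St s) F) (hG : BO (q + 2) (St s) G) {v : Fin q → ℂ} (hv : v ∈ PU q (St s)) :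
    ec q (fun z => F z + G z) v = ec q F v + ec q G v := by
  have hU : IsOpen (PU (q + 2) (St s)) := scv_PU_open (scv_St_open s)
  rw [e10_ec_eq, e10_ec_eq, e10_ec_eq, ← intervalIntegral.integral_add
    (e10_int (scv_pd_diff _ hU F hF.hol 1) (e10_P_cont v) (e10_P_mem hs hv))
    (e10_int (scv_pd_diff _ hU G hG.hol 1) (e10_P_cont v) (e10_P_mem hs hv))]
  refine intervalIntegral.integral_congr fun x _ => ?_
  exact e10_pd_add hU hF.hol hG.hol 1 (e10_P_mem hs hv x)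

theorem e10_ec_smul {q : ℕ} (c : ℂ) (F : (Fin (q + 2) → ℂ) → ℂ) (v : Fin q → ℂ) :
    ec q (fun z => c * F z) v = c * ec q F v := by
  rw [e10_ec_eq, e10_ec_eq, ← intervalIntegral.integral_const_mul]
  refine intervalIntegral.integral_congr fun x _ => ?_
  show pd 1 (fun z => c * F z) (e10_P v x) = _
  rw [e10_pd_smul]

theorem e10_gc_add {q : ℕ} {s : ℝ} (hs : 0 < s) {F G : (Fin (q + 2) → ℂ) → ℂ}
    (hF : BO (q + 2) (St s) F) (hG : BO (q + 2) (St s) G) {v : Fin q → ℂ} (hv : v ∈ PU q (St s)) :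
    gc q (fun z => F z + G z) v = gc q F v + gc q G v := by
  have hU : IsOpen (PU (q + 2) (St s)) := scv_PU_open (scv_St_open s)
  rw [e10_gc_eq, e10_gc_eq, e10_gc_eq, ← intervalIntegral.integral_add
    (e10_int (scv_pd_diff _ hU _ (scv_pd_diff _ hU _ (scv_pd_diff _ hU F hF.hol 1) 1) 0)
      (e10_P_cont v) (e10_P_mem hs hv))
    (e10_int (scv_pd_diff _ hU _ (scv_pd_diff _ hU _ (scv_pd_diff _ hU G hG.hol 1) 1) 0)
      (e10_P_cont v) (e10_P_mem hs hv))]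
  refine intervalIntegral.integral_congr fun x _ => ?_
  exact e10_pd_add3 hU hF.hol hG.hol 0 1 1 (e10_P_mem hs hv x)

theorem e10_gc_smul {q : ℕ} (c : ℂ) (F : (Fin (q + 2) → ℂ) → ℂ) (v : Fin q → ℂ) :
    gc q (fun z => c * F z) v = c * gc q F v := by
  rw [e10_gc_eq, e10_gc_eq, ← intervalIntegral.integral_const_mul]
  refine intervalIntegral.integral_congr fun x _ => ?_
  show pd 0 (pd 1 (pd 1 (fun z => c * F z))) (e10_P v x) = _
  rw [e10_pd_smul, e10_pd_smul, e10_pd_smul]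

theorem e10_oc_add {q : ℕ} {s : ℝ} (hs : 0 < s) {F G : (Fin (q + 3) → ℂ) → ℂ}
    (hF : BO (q + 3) (St s) F) (hG : BO (q + 3) (St s) G) {v : Fin q → ℂ} (hv : v ∈ PU q (St s)) :
    oc q (fun z => F z + G z) v = oc q F v + oc q G v := by
  have hU : IsOpen (PU (q + 3) (St s)) := scv_PU_open (scv_St_open s)
  rw [e10_oc_eq, e10_oc_eq, e10_oc_eq, ← intervalIntegral.integral_add
    (e10_int (scv_pd_diff _ hU _ (scv_pd_diff _ hU _ (scv_pd_diff _ hU F hF.hol 2) 2) 1)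
      (e10_Q_cont v) (e10_Q_mem hs hv))
    (e10_int (scv_pd_diff _ hU _ (scv_pd_diff _ hU _ (scv_pd_diff _ hU G hG.hol 2) 2) 1)
      (e10_Q_cont v) (e10_Q_mem hs hv))]
  refine intervalIntegral.integral_congr fun x _ => ?_
  exact e10_pd_add3 hU hF.hol hG.hol 1 2 2 (e10_Q_mem hs hv x)

theorem e10_oc_smul {q : ℕ} (c : ℂ) (F : (Fin (q + 3) → ℂ) → ℂ) (v : Fin q → ℂ) :
    oc q (fun z => c * F z) v = c * oc q F v := by
  rw [e10_oc_eq, e10_oc_eq, ← intervalIntegral.integral_const_mul]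
  refine intervalIntegral.integral_congr fun x _ => ?_
  show pd 1 (pd 2 (pd 2 (fun z => c * F z))) (e10_Q v x) = _
  rw [e10_pd_smul, e10_pd_smul, e10_pd_smul]

/-! ### the induction -/

/-- a contraction of degree 2 -/
structure e10_Con (K : ∀ q : ℕ, ((Fin (q + 2) → ℂ) → ℂ) → (Fin q → ℂ) → ℂ) : Prop where
  bo : ∀ (q : ℕ) (s : ℝ), 0 < s → ∀ F, BO (q + 2) (St s) F → BO q (St s) (K q F)
  add : ∀ (q : ℕ) (s : ℝ), 0 < s → ∀ F G, BO (q + 2) (St s) F → BO (q + 2) (St s) G →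
    ∀ v ∈ PU q (St s), K q (fun z => F z + G z) v = K q F v + K q G v
  smul : ∀ (q : ℕ) (c : ℂ) F v, K q (fun z => c * F z) v = c * K q F v
  bd : ∀ (q : ℕ) (s : ℝ), 0 < s → ∃ C : ℝ, ∀ F, BO (q + 2) (St s) F → ∀ M : ℝ,
    (∀ z ∈ PU (q + 2) (St s), ‖F z‖ ≤ M) → ∀ z ∈ PU q (St s), ‖K q F z‖ ≤ C * M
  d : ∀ (q : ℕ) (s : ℝ), 0 < s → ∀ F, BO (q + 3) (St s) F → ∀ v ∈ PU q (St s),
    K q (dd (q + 2) F) v = dd q (K (q + 1) F) v
  w : ∀ (q : ℕ) (s : ℝ), 0 < s → ∀ F, BO (q + 2) (St s) F → ∀ v ∈ PU (q + 1) (St s),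
    K (q + 1) (wd (fun _ => 1) (q + 2) F) v = wd (fun _ => 1) q (K q F) v
  sh : ∀ (q : ℕ) (s t : ℝ), 0 < s → ∀ F, BO (q + 2) (St s) F → ∀ v ∈ PU q (St s),
    K q (shf t F) v = shf t (K q F) v

theorem e10_ddBO (hE1 : ST_E1) (q : ℕ) {s s1 : ℝ} (hss : s < s1) {F : (Fin (q + 1) → ℂ) → ℂ}
    (hF : BO (q + 1) (St s1) F) : BO q (St s) (dd q F) := by
  refine (hE1 q (St s) (St s1) (s1 - s) (scv_St_open s) (scv_St_open s1) ?_ (by linarith) ?_
    F hF).1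
  · intro z
    show |z.im| < s1 ↔ |(z + 1).im| < s1
    simp
  · intro z hz w hw
    have hz' : |z.im| < s := hz
    have hw' : ‖w - z‖ < s1 - s := by
      rw [← dist_eq_norm]
      exact hw
    show |w.im| < s1
    have h1 : |w.im - z.im| ≤ ‖w - z‖ := by
      rw [← Complex.sub_im]
      exact Complex.abs_im_le_norm _
    have h2 : |w.im| ≤ |w.im - z.im| + |z.im| := by
      have := abs_add_le (w.im - z.im) z.im
      rwa [sub_add_cancel] at this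
    linarith

theorem e10_wdBO (hE4 : ST_E4) (q : ℕ) {s : ℝ} {F : (Fin q → ℂ) → ℂ}
    (hF : BO q (St s) F) : BO (q + 1) (St s) (wd (fun _ => 1) q F) := by
  refine (hE4 q (St s) (fun _ => 1) 1 (scv_St_open s) ?_ (differentiableOn_const 1)
    (fun _ _ => rfl) (fun _ _ => by simp) F hF).1
  intro z
  show |z.im| < s ↔ |(z + 1).im| < s
  simp

theorem e10_fnl_step {q : ℕ} {p : ℕ} {s : ℝ}
    {K : ((Fin p → ℂ) → ℂ) → (Fin q → ℂ) → ℂ}
    (hbo : ∀ F, BO p (St s) F → BO q (St s) (K F))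
    (hadd : ∀ F G, BO p (St s) F → BO p (St s) G →
      ∀ v ∈ PU q (St s), K (fun z => F z + G z) v = K F v + K G v)
    (hsmul : ∀ (c : ℂ) F v, K (fun z => c * F z) v = c * K F v)
    (hbd : ∃ C : ℝ, ∀ F, BO p (St s) F → ∀ M : ℝ,
      (∀ z ∈ PU p (St s), ‖F z‖ ≤ M) → ∀ z ∈ PU q (St s), ‖K F z‖ ≤ C * M)
    {α : ((Fin q → ℂ) → ℂ) → ℂ} (hα : Fnl q (St s) α) : Fnl p (St s) (fun F => α (K F)) := by
  refine ⟨?_, ?_, ?_⟩
  · intro F G hF hG
    rw [hα.ext' (hbo _ (hF.add hG)) ((hbo F hF).add (hbo G hG)) (hadd F G hF hG)]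
    exact hα.add _ _ (hbo F hF) (hbo G hG)
  · intro c F hF
    have h1 : K (fun z => c * F z) = fun v => c * K F v := funext fun v => hsmul c F v
    show α (K (fun z => c * F z)) = c * α (K F)
    rw [h1]
    exact hα.smul c _ (hbo F hF)
  · obtain ⟨C, hC⟩ := hbd
    obtain ⟨D, hD, hαD⟩ := hα.bdd
    refine ⟨D * |C|, mul_nonneg hD (abs_nonneg C), ?_⟩
    intro F hF M hM hM0
    have h1 := hαD (K F) (hbo F hF) (|C| * M) (fun z hz => (hC F hF M hM z hz).trans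
      (mul_le_mul_of_nonneg_right (le_abs_self C) hM0)) (mul_nonneg (abs_nonneg C) hM0)
    rw [mul_assoc]
    exact h1

theorem e10_pt {U : Set ℂ} : Fnl 0 U (fun F => F (fun _ => 0)) := by
  refine ⟨fun F G _ _ => rfl, fun c F _ => rfl, ⟨1, zero_le_one, ?_⟩⟩
  intro F hF M hM _
  rw [one_mul]
  exact hM _ (fun i => i.elim0)

theorem e10_main (hE1 : ST_E1) (hE4 : ST_E4) (hE9 : ST_E9)
    {K : ∀ q : ℕ, ((Fin (q + 2) → ℂ) → ℂ) → (Fin q → ℂ) → ℂ} (hK : e10_Con K)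
    (hK0 : ∀ s : ℝ, 0 < s → ∀ F, BO 1 (St s) F → ∀ v, K 0 (wd (fun _ => 1) 1 F) v = 0)
    (α : ∀ m : ℕ, ((Fin (2 * m) → ℂ) → ℂ) → ℂ) (h0 : ∀ F, α 0 F = F (fun _ => 0))
    (h1 : ∀ m (F : (Fin (2 * m + 2) → ℂ) → ℂ), α (m + 1) F = α m (K (2 * m) F)) :
    ∀ (m : ℕ) (s : ℝ), 0 < s → Fnl (2 * m) (St s) (α m) ∧ Clo (2 * m) s (α m) ∧
      Rot (2 * m) s (α m) ∧ Io (2 * m + 1) s (α (m + 1)) := by
  have hfnl : ∀ (m : ℕ) (s : ℝ), 0 < s → Fnl (2 * m) (St s) (α m) := by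
    intro m
    induction m with
    | zero =>
      intro s hs
      have e : α 0 = fun F => F (fun _ => 0) := funext h0
      rw [e]
      exact e10_pt
    | succ m ih =>
      intro s hs
      have e : α (m + 1) = fun F => α m (K (2 * m) F) := funext (h1 m)
      rw [e]
      exact e10_fnl_step (hK.bo (2 * m) s hs) (hK.add (2 * m) s hs) (hK.smul (2 * m))
        (hK.bd (2 * m) s hs) (ih s hs)
  intro m
  induction m with
  | zero =>
    intro s hs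
    refine ⟨hfnl 0 s hs, ?_, ?_, ?_⟩
    · intro s1 _ F _
      rw [h0]
      rfl
    · intro s1 _ F _ t
      rw [h0, h0]
      show F _ = F _
      congr 1
      funext i
      exact i.elim0
    · intro s1 hs1 F hF
      have := h1 0 (wd (fun _ => 1) 1 F)
      refine this.trans ?_
      rw [h0]
      exact hK0 s1 (hs.trans hs1) F hF _
  | succ m ih =>
    intro s hs
    obtain ⟨ih1, ih2, ih3, ih4⟩ := ih s hs
    refine ⟨hfnl (m + 1) s hs, ?_, ?_, ?_⟩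
    · intro s1 hs1 F hF
      have hs1' : 0 < s1 := hs.trans hs1
      obtain ⟨s2, hs2, hs21⟩ := exists_between hs1
      have hs2' : 0 < s2 := hs.trans hs2
      refine (h1 m (dd (2 * m + 2) F)).trans ?_
      have hKF : BO (2 * m + 1) (St s1) (K (2 * m + 1) F) := hK.bo (2 * m + 1) s1 hs1' F hF
      rw [(hfnl m s2 hs2').ext' (hK.bo (2 * m) s2 hs2' _ (e10_ddBO hE1 (2 * m + 2) hs21 hF))
        (e10_ddBO hE1 (2 * m) hs21 hKF)
        (fun z hz => hK.d (2 * m) s1 hs1' F hF z (PU_mono (St_mono hs21.le) hz))]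
      exact ih2 s1 hs1 _ hKF
    · intro s1 hs1 F hF t
      have hs1' : 0 < s1 := hs.trans hs1
      refine (h1 m (shf t F)).trans (Eq.trans ?_ (h1 m F).symm)
      have hKF : BO (2 * m) (St s1) (K (2 * m) F) := hK.bo (2 * m) s1 hs1' F hF
      rw [(hfnl m s1 hs1').ext' (hK.bo (2 * m) s1 hs1' _ ((hE9 (2 * m + 2) s1 t hs1').1 F hF))
        ((hE9 (2 * m) s1 t hs1').1 _ hKF) (hK.sh (2 * m) s1 t hs1' F hF)]
      exact ih3 s1 hs1 _ hKF t
    · intro s1 hs1 F hF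
      have hs1' : 0 < s1 := hs.trans hs1
      refine (h1 (m + 1) (wd (fun _ => 1) (2 * m + 3) F)).trans ?_
      have hKF : BO (2 * m + 1) (St s1) (K (2 * m + 1) F) := hK.bo (2 * m + 1) s1 hs1' F hF
      have hw : BO (2 * m + 4) (St s1) (wd (fun _ => 1) (2 * m + 3) F) :=
        e10_wdBO hE4 (2 * m + 3) hF
      have key := (hfnl (m + 1) s1 hs1').ext' (hK.bo (2 * m + 2) s1 hs1' _ hw)
        (e10_wdBO hE4 (2 * m + 1) hKF) (hK.w (2 * m + 1) s1 hs1' F hF)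
      refine Eq.trans key ?_
      exact ih4 s1 hs1 _ hKF

theorem e10_conE (hE6 : ST_E6) (hE9 : ST_E9) : e10_Con ec where
  bo q s hs := (hE6 q s hs).1
  add q s hs F G hF hG v hv := e10_ec_add hs hF hG hv
  smul q c F v := e10_ec_smul c F v
  bd q s hs := (hE6 q s hs).2.1
  d q s hs := (hE6 q s hs).2.2.1
  w q s hs := (hE6 q s hs).2.2.2.1
  sh q s t hs := (hE9 q s t hs).2.2.2.2.1

theorem e10_conG (hE7 : ST_E7) (hE9 : ST_E9) : e10_Con gc where
  bo q s hs := (hE7 q s hs).1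
  add q s hs F G hF hG v hv := e10_gc_add hs hF hG hv
  smul q c F v := e10_gc_smul c F v
  bd q s hs := (hE7 q s hs).2.1
  d q s hs := (hE7 q s hs).2.2.1
  w q s hs := (hE7 q s hs).2.2.2.1
  sh q s t hs := (hE9 q s t hs).2.2.2.2.2

theorem e10_om_fnl (hE7 : ST_E7) (hE8 : ST_E8) (m : ℕ) :
    ∀ s : ℝ, 0 < s → Fnl (2 * m + 3) (St s) (Omm m) := by
  induction m with
  | zero =>
    intro s hs
    exact e10_fnl_step (hE8 0 s hs).1 (fun F G hF hG v hv => e10_oc_add hs hF hG hv)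
      (fun c F v => e10_oc_smul c F v) (hE8 0 s hs).2.1 e10_pt
  | succ m ih =>
    intro s hs
    exact e10_fnl_step (hE7 (2 * m + 3) s hs).1 (fun F G hF hG v hv => e10_gc_add hs hF hG hv)
      (fun c F v => e10_gc_smul c F v) (hE7 (2 * m + 3) s hs).2.1 (ih s hs)

theorem e10_om_clo (hE1 : ST_E1) (hE7 : ST_E7) (hE8 : ST_E8) (m : ℕ) :
    ∀ s : ℝ, 0 < s → Clo (2 * m + 3) s (Omm m) := by
  induction m with
  | zero =>
    intro s hs s1 hs1 F hF
    have hs1' : 0 < s1 := hs.trans hs1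
    have h := (hE8 0 s1 hs1').2.2.1 F hF (fun _ => 0) (fun i => i.elim0)
    show oc 0 (dd 3 F) (fun _ => 0) = 0
    rw [h]
    show -(∑ i : Fin 0, _) = (0 : ℂ)
    simp
  | succ m ih =>
    intro s hs s1 hs1 F hF
    have hs1' : 0 < s1 := hs.trans hs1
    obtain ⟨s2, hs2, hs21⟩ := exists_between hs1
    have hs2' : 0 < s2 := hs.trans hs2
    show Omm m (gc (2 * m + 3) (dd (2 * m + 5) F)) = 0
    have hKF : BO (2 * m + 4) (St s1) (gc (2 * m + 4) F) := (hE7 (2 * m + 4) s1 hs1').1 F hF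
    rw [(e10_om_fnl hE7 hE8 m s2 hs2').ext'
      ((hE7 (2 * m + 3) s2 hs2').1 _ (e10_ddBO hE1 (2 * m + 5) hs21 hF))
      (e10_ddBO hE1 (2 * m + 3) hs21 hKF)
      (fun z hz => (hE7 (2 * m + 3) s1 hs1').2.2.1 F hF z (PU_mono (St_mono hs21.le) hz))]
    exact ih s hs s1 hs1 _ hKF

theorem e10_om_w (hE4 : ST_E4) (hE7 : ST_E7) (hE8 : ST_E8) (m : ℕ) :
    ∀ s1 : ℝ, 0 < s1 → ∀ F, BO (2 * m + 2) (St s1) F →
      Omm m (wd (fun _ => 1) (2 * m + 2) F) = GVm (m + 1) F := by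
  induction m with
  | zero =>
    intro s1 hs1 F hF
    exact (hE8 0 s1 hs1).2.2.2.2 F hF (fun _ => 0)
  | succ m ih =>
    intro s1 hs1 F hF
    show Omm m (gc (2 * m + 3) (wd (fun _ => 1) (2 * m + 4) F)) = GVm (m + 1) (gc (2 * m + 2) F)
    have hKF : BO (2 * m + 2) (St s1) (gc (2 * m + 2) F) := (hE7 (2 * m + 2) s1 hs1).1 F hF
    rw [(e10_om_fnl hE7 hE8 m s1 hs1).ext'
      ((hE7 (2 * m + 3) s1 hs1).1 _ (e10_wdBO hE4 (2 * m + 4) hF))
      (e10_wdBO hE4 (2 * m + 2) hKF)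
      ((hE7 (2 * m + 2) s1 hs1).2.2.2.1 F hF)]
    exact ih s1 hs1 _ hKF

theorem st_E10 (hE1 : ST_E1) (hE4 : ST_E4) (hE6 : ST_E6) (hE7 : ST_E7) (hE8 : ST_E8)
    (hE9 : ST_E9) : ST_E10 := by
  intro m s hs
  obtain ⟨a1, a2, a3, a4⟩ := e10_main hE1 hE4 hE9 (e10_conE hE6 hE9)
    (fun s hs => (hE6 0 s hs).2.2.2.2) Em (fun _ => rfl) (fun _ _ => rfl) m s hs
  obtain ⟨b1, b2, b3, b4⟩ := e10_main hE1 hE4 hE9 (e10_conG hE7 hE9)
    (fun s hs => (hE7 0 s hs).2.2.2.2) GVm (fun _ => rfl) (fun _ _ => rfl) m s hs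
  exact ⟨a1, a2, a3, b1, b2, b3, e10_om_fnl hE7 hE8 m s hs, e10_om_clo hE1 hE7 hE8 m s hs, a4, b4,
    fun s1 hs1 F hF => e10_om_w hE4 hE7 hE8 m s1 (hs.trans hs1) F hF⟩

end

end Pool.Agent.Helper67.DO
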