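import Pool.Agent.Helper67.DO.StmtsT

/-!
# Module T10: the star statements for inhomogeneous real cochains
-/

set_option autoImplicit false

namespace Pool.Agent.Helper67.DO

open scoped BigOperators Real

theorem t10_rm_mem {n : ℕ} {y : Sq} (hy : ∀ k, y k ∈ AA n) (i : ℕ) : ∀ k, rm i y k ∈ AA n := by
  intro k
  unfold rm
  split_ifs
  · exact hy k
  · exact hy (k + 1)

theorem t10_coc (hT3 : ST_T3) {n p : ℕ} {c : (Fin p → DiffOmega) → ℝ}
    (hc : ∀ g ∈ EE n (p + 1), cobd p c g = 0) : CocL n p (Cc p c) := by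
  intro y hy
  rw [hT3.1 p c y (fun k => (hy k).1), hc (prQ (p + 1) y) ⟨y, hy, rfl⟩]
  simp

theorem t10_re (hT3 : ST_T3) {n p : ℕ} {B : Sq → ℂ} {b : (Fin p → DiffOmega) → ℝ}
    (hb : ∀ y : Sq, (∀ k, y k ∈ AA n) → b (prQ p y) = (B y).re) {y : Sq}
    (hy : ∀ k, y k ∈ AA n) : (dlt p B y).re = cobd p b (prQ (p + 1) y) := by
  have h1 : dlt p (Cc p b) y = ((dlt p B y).re : ℂ) := by
    unfold dlt
    rw [Complex.re_sum, Complex.ofReal_sum]
    refine Finset.sum_congr rfl fun i _ => ?_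
    have h2 : (-1 : ℂ) ^ i = (((-1 : ℝ) ^ i : ℝ) : ℂ) := by push_cast; rfl
    rw [h2, Complex.re_ofReal_mul, Complex.ofReal_mul]
    congr 1
    unfold Cc
    rw [hb (rm i y) (t10_rm_mem hy i)]
  rw [hT3.1 p b y (fun k => (hy k).1)] at h1
  exact_mod_cast h1.symm

theorem st_T10 (hT3 : ST_T3) (hT8 : ST_T8) : ST_T10 := by
  refine ⟨?_, ?_⟩
  · intro hS m n hn
    obtain ⟨n', hn', h⟩ := hS m n hn
    refine ⟨n', hn', ?_⟩
    intro c hc hcoc
    obtain ⟨x, y, B, hB, hBy⟩ := h (Cc (2 * m + 2) c) (hT8.1 n' _ c (hn.trans hn') hc)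
      (t10_coc hT3 hcoc)
    obtain ⟨b, hbc, hb⟩ := hT8.2 n (2 * m + 1) B hn hB
    refine ⟨x.re, y.re, b, hbc, ?_⟩
    rintro g ⟨Y, hY, rfl⟩
    have h1 := congrArg Complex.re (hBy Y hY)
    have h2 : (Cc (2 * m + 2) c Y).re = c (prQ (2 * m + 2) Y) := Complex.ofReal_re _
    have h3 : ((cupPow eul (m + 1) (prQ (2 * (m + 1)) Y) : ℝ) : ℂ) = ePow (m + 1) Y :=
      hT3.2.2.2.1 (m + 1) Y (fun k => (hY k).1)
    have h4 : ((cupPow gvc (m + 1) (prQ (2 * (m + 1)) Y) : ℝ) : ℂ) = gvPow (m + 1) Y :=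
      hT3.2.2.2.2.1 (m + 1) Y (fun k => (hY k).1)
    rw [h2, ← h3, ← h4, Complex.add_re, Complex.add_re, Complex.re_mul_ofReal,
      Complex.re_mul_ofReal, t10_re hT3 hb hY] at h1
    exact h1
  · intro hS m n hn
    obtain ⟨n', hn', h⟩ := hS m n hn
    refine ⟨n', hn', ?_⟩
    intro c hc hcoc
    obtain ⟨B, hB, hBy⟩ := h (Cc (2 * m + 1) c) (hT8.1 n' _ c (hn.trans hn') hc)
      (t10_coc hT3 hcoc)
    obtain ⟨b, hbc, hb⟩ := hT8.2 n (2 * m) B hn hB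
    refine ⟨b, hbc, ?_⟩
    rintro g ⟨Y, hY, rfl⟩
    have h1 := congrArg Complex.re (hBy Y hY)
    have h2 : (Cc (2 * m + 1) c Y).re = c (prQ (2 * m + 1) Y) := Complex.ofReal_re _
    rw [h2, t10_re hT3 hb hY] at h1
    exact h1

end Pool.Agent.Helper67.DO
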