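import Pool.Agent.Helper67.DO.BaseE

/-!
# Module W1: Cauchy formula on the contour of a shape
-/

set_option autoImplicit false

namespace Pool.Agent.Helper67.DO

open scoped BigOperators Real Topology
open MeasureTheory

noncomputable section

/-! ### the kernel -/

theorem w1_kap_eq (ζ : ℂ) : kap ζ = Complex.cos (π * ζ) / Complex.sin (π * ζ) / (2 * Complex.I) := by
  unfold kap
  rw [Complex.cot_eq_cos_div_sin]

theorem w1_kap_per (ζ : ℂ) : kap (ζ + 1) = kap ζ := by
  rw [w1_kap_eq, w1_kap_eq]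
  have h : (π : ℂ) * (ζ + 1) = π * ζ + π := by ring
  rw [h, Complex.cos_add_pi, Complex.sin_add_pi, neg_div_neg_eq]

theorem w1_kap_neg (ζ : ℂ) : kap (-ζ) = -kap ζ := by
  rw [w1_kap_eq, w1_kap_eq]
  have h : (π : ℂ) * -ζ = -(π * ζ) := by ring
  rw [h, Complex.cos_neg, Complex.sin_neg, div_neg, neg_div]

theorem w1_kap_diff {ζ : ℂ} (h : Complex.sin (π * ζ) ≠ 0) : DifferentiableAt ℂ kap ζ := by
  have e : kap = fun ζ => Complex.cos (π * ζ) / Complex.sin (π * ζ) / (2 * Complex.I) :=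
    funext w1_kap_eq
  rw [e]
  have h1 : DifferentiableAt ℂ (fun ζ : ℂ => Complex.cos (π * ζ)) ζ := by fun_prop
  have h2 : DifferentiableAt ℂ (fun ζ : ℂ => Complex.sin (π * ζ)) ζ := by fun_prop
  exact (h1.div h2 h).div_const _

theorem w1_sin_zero {ζ : ℂ} : Complex.sin (π * ζ) = 0 ↔ ∃ k : ℤ, ζ = k := by
  rw [Complex.sin_eq_zero_iff]
  have hpi : (π : ℂ) ≠ 0 := by exact_mod_cast Real.pi_ne_zero
  constructor
  · rintro ⟨k, hk⟩
    refine ⟨k, ?_⟩
    have : (π : ℂ) * ζ = π * k := by rw [hk]; ring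
    exact mul_left_cancel₀ hpi this
  · rintro ⟨k, hk⟩
    exact ⟨k, by rw [hk]; ring⟩

/-- mean of the kernel above the real line -/
theorem w1_kint {c : ℂ} (hc : 0 < c.im) : ∫ x in (0 : ℝ)..1, kap (x + c) = -(1 / 2) := by
  set q : ℝ → ℂ := fun x => Complex.exp (2 * π * Complex.I * (x + c)) with hq
  have hqn : ∀ x : ℝ, ‖q x‖ < 1 := by
    intro x
    rw [hq]
    show ‖Complex.exp _‖ < 1
    rw [Complex.norm_exp]
    have h1 : (2 * (π : ℂ) * Complex.I * (x + c)).re = -(2 * π * c.im) := by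
      simp
    rw [h1, Real.exp_lt_one_iff]
    have := Real.pi_pos
    have : 0 < 2 * π * c.im := by positivity
    linarith
  have hslit : ∀ x : ℝ, 1 - q x ∈ Complex.slitPlane := by
    intro x
    left
    have h1 : (q x).re ≤ ‖q x‖ := Complex.re_le_norm _
    have h2 := hqn x
    simp only [Complex.sub_re, Complex.one_re]
    linarith
  have hne : ∀ x : ℝ, 1 - q x ≠ 0 := fun x => Complex.slitPlane_ne_zero (hslit x)
  have hqd : ∀ x : ℝ, HasDerivAt q (q x * (2 * π * Complex.I)) x := by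
    intro x
    have h1 : HasDerivAt (fun x : ℝ => 2 * (π : ℂ) * Complex.I * ((x : ℂ) + c))
        (2 * π * Complex.I * 1) x :=
      ((Complex.ofRealCLM.hasDerivAt (x := x)).add_const c).const_mul _
    have h2 := h1.cexp
    rw [mul_one] at h2
    exact h2
  have hkap : ∀ x : ℝ, kap (x + c) = -(1 / 2) - q x / (1 - q x) := by
    intro x
    rw [w1_kap_eq]
    set a : ℂ := Complex.exp (π * (x + c) * Complex.I) with ha
    have ha0 : a ≠ 0 := Complex.exp_ne_zero _
    have hqa : q x = a * a := by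
      rw [ha, ← Complex.exp_add]
      show Complex.exp _ = _
      congr 1
      ring
    have hcos : Complex.cos (π * (x + c)) = (a + a⁻¹) / 2 := by
      rw [Complex.cos, ha, ← Complex.exp_neg]
      congr 3
      ring
    have hsin : Complex.sin (π * (x + c)) = (a⁻¹ - a) * Complex.I / 2 := by
      rw [Complex.sin, ha, ← Complex.exp_neg]
      congr 4
      ring
    have h1 := hne x
    rw [hqa] at h1 ⊢
    rw [hcos, hsin]
    have hI := Complex.I_ne_zero
    have h3 : a⁻¹ - a = (1 - a * a) * a⁻¹ := by field_simp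
    have h4 : a + a⁻¹ = (1 + a * a) * a⁻¹ := by
      field_simp
      ring
    rw [h3, h4]
    obtain ⟨d, hd⟩ : ∃ d, d = 1 - a * a := ⟨_, rfl⟩
    have hd' : a * a = 1 - d := by rw [hd]; ring
    rw [← hd] at h1 ⊢
    rw [hd']
    field_simp
    rw [Complex.I_sq]
    ring
  have hprim : ∀ x : ℝ, HasDerivAt (fun x : ℝ => -(1 / 2) * (x : ℂ)
      + (2 * π * Complex.I)⁻¹ * Complex.log (1 - q x)) (kap (x + c)) x := by
    intro x
    have h1 : HasDerivAt (fun x : ℝ => (x : ℂ)) 1 x := Complex.ofRealCLM.hasDerivAt (x := x)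
    have h2 : HasDerivAt (fun x : ℝ => 1 - q x) (-(q x * (2 * π * Complex.I))) x :=
      (hqd x).const_sub 1
    have h3 := h2.clog_real (hslit x)
    have h4 := (h1.const_mul (-(1 / 2) : ℂ)).add (h3.const_mul ((2 * π * Complex.I : ℂ)⁻¹))
    have e : -(1 / 2) * 1 + (2 * (π : ℂ) * Complex.I)⁻¹ *
        (-(q x * (2 * π * Complex.I)) / (1 - q x)) = kap (x + c) := by
      rw [hkap x]
      have h5 := hne x
      have h6 : (2 * (π : ℂ) * Complex.I) ≠ 0 := Complex.two_pi_I_ne_zero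
      field_simp
      ring
    rw [e] at h4
    exact h4
  have hcont : Continuous (fun x : ℝ => kap (x + c)) := by
    have e : (fun x : ℝ => kap (x + c)) = fun x => -(1 / 2) - q x / (1 - q x) := funext hkap
    rw [e]
    have hqc : Continuous q := continuous_iff_continuousAt.2 fun x => (hqd x).continuousAt
    exact continuous_const.sub (hqc.div (continuous_const.sub hqc) hne)
  rw [intervalIntegral.integral_eq_sub_of_hasDerivAt (fun x _ => hprim x)
    (hcont.intervalIntegrable _ _)]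
  have hq01 : q 1 = q 0 := by
    rw [hq]
    show Complex.exp _ = Complex.exp _
    rw [Complex.exp_eq_exp_iff_exists_int]
    refine ⟨1, ?_⟩
    push_cast
    ring
  rw [hq01]
  push_cast
  ring

theorem w1_kint' {c : ℂ} (hc : c.im < 0) : ∫ x in (0 : ℝ)..1, kap (x + c) = 1 / 2 := by
  have h1 : ∫ x in (0 : ℝ)..1, kap (x + c) = ∫ x in (0 : ℝ)..1, -kap (x + (-1 - c)) := by
    have h2 := intervalIntegral.integral_comp_sub_left (a := 0) (b := 1)
      (fun x : ℝ => kap ((x : ℂ) + c)) 1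
    rw [sub_self, sub_zero] at h2
    rw [← h2]
    apply intervalIntegral.integral_congr
    intro x _
    show kap (((1 - x : ℝ) : ℂ) + c) = -kap (x + (-1 - c))
    rw [← w1_kap_neg]
    congr 1
    push_cast
    ring
  rw [h1, intervalIntegral.integral_neg, w1_kint (by simp; linarith)]
  ring

/-! ### rectangles -/

theorem w1_rect {a b σ : ℝ} (hab : a ≤ b) (hσ : 0 ≤ σ) (g : ℂ → ℂ) (s : Set ℂ) (hs : s.Countable)
    (hc : ∀ ζ : ℂ, a ≤ ζ.re → ζ.re ≤ b → |ζ.im| ≤ σ → ContinuousAt g ζ)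
    (hd : ∀ ζ : ℂ, a ≤ ζ.re → ζ.re ≤ b → |ζ.im| ≤ σ → ζ ∉ s → DifferentiableAt ℂ g ζ) :
    ∫ x in a..b, (g (x - σ * Complex.I) - g (x + σ * Complex.I))
      = Complex.I * (∫ y in (-σ)..σ, g ((a : ℝ) + y * Complex.I))
        - Complex.I * ∫ y in (-σ)..σ, g ((b : ℝ) + y * Complex.I) := by
  have h := Complex.integral_boundary_rect_eq_zero_of_differentiable_on_off_countable g
    ((a : ℂ) - σ * Complex.I) ((b : ℂ) + σ * Complex.I) s hs
  have e1 : ((a : ℂ) - σ * Complex.I).re = a := by simp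
  have e2 : ((a : ℂ) - σ * Complex.I).im = -σ := by simp
  have e3 : ((b : ℂ) + σ * Complex.I).re = b := by simp
  have e4 : ((b : ℂ) + σ * Complex.I).im = σ := by simp
  rw [e1, e2, e3, e4] at h
  have h' := h (by
    intro ζ hζ
    rw [Complex.mem_reProdIm, Set.uIcc_of_le hab, Set.uIcc_of_le (by linarith)] at hζ
    exact (hc ζ hζ.1.1 hζ.1.2 (abs_le.2 ⟨hζ.2.1, hζ.2.2⟩)).continuousWithinAt) (by
    rintro ζ ⟨hζ, hζs⟩
    rw [Complex.mem_reProdIm, min_eq_left hab, max_eq_right hab, min_eq_left (by linarith),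
      max_eq_right (by linarith)] at hζ
    exact hd ζ hζ.1.1.le hζ.1.2.le (abs_le.2 ⟨hζ.2.1.le, hζ.2.2.le⟩) hζs)
  have hi : ∀ τ : ℝ, |τ| ≤ σ → IntervalIntegrable (fun x : ℝ => g (x + τ * Complex.I)) volume a b := by
    intro τ hτ
    apply ContinuousOn.intervalIntegrable
    rw [Set.uIcc_of_le hab]
    intro x hx
    have h1 : ContinuousAt g (x + τ * Complex.I) := hc _ (by simpa using hx.1) (by simpa using hx.2)
      (by simpa using hτ)
    have h2 : ContinuousAt (fun x : ℝ => (x : ℂ) + τ * Complex.I) x := by fun_prop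
    exact (ContinuousAt.comp (f := fun x : ℝ => (x : ℂ) + τ * Complex.I) h1 h2).continuousWithinAt
  have hi1 := hi (-σ) (by rw [abs_neg, abs_of_nonneg hσ])
  have hi2 := hi σ (by rw [abs_of_nonneg hσ])
  have e5 : ∫ x in a..b, (g (x - σ * Complex.I) - g (x + σ * Complex.I))
      = (∫ x in a..b, g (x + ((-σ : ℝ) : ℂ) * Complex.I)) - ∫ x in a..b, g (x + σ * Complex.I) := by
    rw [← intervalIntegral.integral_sub hi1 hi2]
    apply intervalIntegral.integral_congr
    intro x _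
    show g _ - g _ = g _ - g _
    congr 2
    push_cast
    ring
  rw [e5]
  simp only [smul_eq_mul] at h'
  linear_combination h'

/-! ### telescoping -/

theorem w1_tel0 {N : ℕ} {P G : Set ℤ} (hS : Shape N P G) (r σ : ℝ) (g : ℂ → ℂ)
    (ha : ∀ l : ℕ, l < N → (l : ℤ) ∉ G → gapI N r σ l g = verR N r σ l g - verL N r σ (l + 1) g)
    (hb : ∀ l : ℕ, l < N → (l : ℤ) ∉ P → capI N r σ l g = verL N r σ l g - verR N r σ l g)
    (hc : ((N : ℤ) - 1 ∉ G) → verL N r σ N g = verL N r σ 0 g) :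
    ∑ p : Pc N, pI N P G r σ p g = 0 := by
  classical
  set A : ℕ → ℂ := fun l => if (l : ℤ) ∈ G then 0 else verR N r σ l g with hA
  set B : ℕ → ℂ := fun l => if (l : ℤ) - 1 ∈ G then 0 else verL N r σ l g with hB
  rw [Fintype.sum_sum_type]
  have h1 : ∀ l : Fin N, pI N P G r σ (Sum.inl l) g = A l - B ((l : ℕ) + 1) := by
    intro l
    have e : (((l : ℕ) + 1 : ℕ) : ℤ) - 1 = ((l : ℕ) : ℤ) := by push_cast; ring
    simp only [pI, hA, hB]
    rw [e]
    split_ifs with h
    · ring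
    · rw [ha l l.2 h]
      push_cast
      rfl
  have h2 : ∀ l : Fin N, pI N P G r σ (Sum.inr l) g = B l - A l := by
    intro l
    simp only [pI, hA, hB]
    by_cases hP : ((l : ℕ) : ℤ) ∈ P
    · rw [if_pos hP]
    · have hG : ((l : ℕ) : ℤ) ∉ G := fun h => hP (hS.c0 _ h)
      have hG' : ((l : ℕ) : ℤ) - 1 ∉ G := fun h => hP (by
        have := hS.c1 _ h
        rwa [sub_add_cancel] at this)
      rw [if_neg hP, if_neg hG, if_neg hG', hb l l.2 hP]
  rw [Finset.sum_congr rfl fun l _ => h1 l, Finset.sum_congr rfl fun l _ => h2 l,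
    ← Finset.sum_add_distrib]
  have h3 : ∀ l : Fin N, A l - B ((l : ℕ) + 1) + (B l - A l) = B l - B ((l : ℕ) + 1) := by
    intro l
    ring
  rw [Finset.sum_congr rfl fun l _ => h3 l,
    Fin.sum_univ_eq_sum_range (fun l => B l - B (l + 1)) N, Finset.sum_range_sub']
  have h4 : B 0 = B N := by
    simp only [hB]
    have h5 : ((0 : ℕ) : ℤ) - 1 ∈ G ↔ (N : ℤ) - 1 ∈ G := by
      rw [hS.perG (((0 : ℕ) : ℤ) - 1)]
      have : ((0 : ℕ) : ℤ) - 1 + N = (N : ℤ) - 1 := by push_cast; ring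
      rw [this]
    by_cases h6 : (N : ℤ) - 1 ∈ G
    · rw [if_pos h6, if_pos (h5.2 h6)]
    · rw [if_neg h6, if_neg (fun h => h6 (h5.1 h)), hc h6]
      rfl
  rw [h4, sub_self]

theorem w1_tel1 {N : ℕ} {P G : Set ℤ} (hS : Shape N P G) (r σ : ℝ) (g : ℂ → ℂ)
    (ha : ∀ l : ℕ, l < N → (l : ℤ) ∈ G → gapI N r σ l g = verR N r σ l g - verL N r σ (l + 1) g)
    (hb : ∀ l : ℕ, l < N → (l : ℤ) ∈ P → capI N r σ l g = verL N r σ l g - verR N r σ l g)
    (hc : verL N r σ N g = verL N r σ 0 g) :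
    ∑ p : Pc N, pI N P G r σ p g
      = ∑ l ∈ Finset.range N, (gapI N r σ l g + capI N r σ l g) := by
  classical
  set A : ℕ → ℂ := fun l => if (l : ℤ) ∈ G then verR N r σ l g else 0 with hA
  set B : ℕ → ℂ := fun l => if (l : ℤ) - 1 ∈ G then verL N r σ l g else 0 with hB
  rw [Fintype.sum_sum_type]
  have h1 : ∀ l : Fin N, pI N P G r σ (Sum.inl l) g
      = gapI N r σ (l : ℕ) g - A l + B ((l : ℕ) + 1) := by
    intro l
    have e : (((l : ℕ) + 1 : ℕ) : ℤ) - 1 = ((l : ℕ) : ℤ) := by push_cast; ring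
    simp only [pI, hA, hB]
    rw [e]
    split_ifs with h
    · rw [ha l l.2 h]
      push_cast
      ring
    · ring
  have h2 : ∀ l : Fin N, pI N P G r σ (Sum.inr l) g = capI N r σ (l : ℕ) g - B l + A l := by
    intro l
    simp only [pI, hA, hB]
    by_cases hP : ((l : ℕ) : ℤ) ∈ P
    · rw [if_pos hP, hb l l.2 hP]
      split_ifs <;> ring
    · have hG : ((l : ℕ) : ℤ) ∉ G := fun h => hP (hS.c0 _ h)
      have hG' : ((l : ℕ) : ℤ) - 1 ∉ G := fun h => hP (by
        have := hS.c1 _ h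
        rwa [sub_add_cancel] at this)
      rw [if_neg hP, if_neg hG, if_neg hG']
      ring
  rw [Finset.sum_congr rfl fun l _ => h1 l, Finset.sum_congr rfl fun l _ => h2 l,
    ← Finset.sum_add_distrib]
  have h3 : ∀ l : Fin N, gapI N r σ (l : ℕ) g - A l + B ((l : ℕ) + 1)
      + (capI N r σ (l : ℕ) g - B l + A l)
      = (gapI N r σ (l : ℕ) g + capI N r σ (l : ℕ) g) + (B ((l : ℕ) + 1) - B l) := by
    intro l
    ring
  rw [Finset.sum_congr rfl fun l _ => h3 l,
    Fin.sum_univ_eq_sum_range (fun l : ℕ => (gapI N r σ (l : ℤ) g + capI N r σ (l : ℤ) g)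
      + (B (l + 1) - B l)) N, Finset.sum_add_distrib, Finset.sum_range_sub]
  have h4 : B 0 = B N := by
    simp only [hB]
    have h5 : ((0 : ℕ) : ℤ) - 1 ∈ G ↔ (N : ℤ) - 1 ∈ G := by
      rw [hS.perG (((0 : ℕ) : ℤ) - 1)]
      have : ((0 : ℕ) : ℤ) - 1 + N = (N : ℤ) - 1 := by push_cast; ring
      rw [this]
    by_cases h6 : (N : ℤ) - 1 ∈ G
    · rw [if_pos h6, if_pos (h5.2 h6), hc]
      rfl
    · rw [if_neg h6, if_neg (fun h => h6 (h5.1 h))]
  rw [h4, sub_self, add_zero]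

/-! ### geometry of the pieces -/

theorem w1_div_le {N : ℕ} (hN : 0 < N) {k l : ℤ} (h : k ≤ l) : (k : ℝ) / N ≤ (l : ℝ) / N := by
  have hN' : (0 : ℝ) < N := by exact_mod_cast hN
  apply div_le_div_of_nonneg_right _ hN'.le
  exact_mod_cast h

theorem w1_gap_mem {N : ℕ} (hN : 0 < N) {P G : Set ℤ} {w' r σ h' : ℝ} (hw0 : 0 < w') (hwr : w' < r)
    (hσ : σ < h') {l : ℤ} (hl : l ∉ G) {ζ : ℂ} (h1 : (l : ℝ) / N + r ≤ ζ.re)
    (h2 : ζ.re ≤ ((l : ℝ) + 1) / N - r) (h3 : |ζ.im| ≤ σ) : ζ ∈ US N P G w' h' := by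
  refine ⟨by linarith, fun k _ => ?_, fun k hk => ?_⟩
  · rcases le_or_gt k l with h | h
    · have := w1_div_le hN h
      exact lt_abs.2 (Or.inl (by linarith))
    · have h4 : l + 1 ≤ k := h
      have := w1_div_le hN h4
      push_cast at this
      exact lt_abs.2 (Or.inr (by linarith))
  · have hne : k ≠ l := fun h => hl (h ▸ hk)
    rcases lt_or_gt_of_ne hne with h | h
    · have h4 : k + 1 ≤ l := h
      have := w1_div_le hN h4
      push_cast at this
      exact Or.inr (by linarith)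
    · have h4 : l + 1 ≤ k := h
      have := w1_div_le hN h4
      push_cast at this
      exact Or.inl (by linarith)

theorem w1_win_mem {N : ℕ} (hN : 0 < N) {P G : Set ℤ} (hS : Shape N P G) {w' r σ h' : ℝ}
    (hw0 : 0 < w') (hwr : w' < r) (hr : r < 1 / (4 * N))
    (hσ : σ < h') {l : ℤ} (hl : l ∉ P) {ζ : ℂ} (h1 : |ζ.re - (l : ℝ) / N| ≤ r)
    (h3 : |ζ.im| ≤ σ) : ζ ∈ US N P G w' h' := by
  have hN' : (0 : ℝ) < N := by exact_mod_cast hN
  have h4N : 1 / (4 * (N : ℝ)) = 1 / N / 4 := by field_simp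
  rw [h4N] at hr
  have hsucc : ∀ k l : ℤ, k + 1 ≤ l → (k : ℝ) / N + 1 / N ≤ (l : ℝ) / N := by
    intro k l h
    have := w1_div_le hN h
    push_cast at this
    rw [add_div] at this
    exact this
  have h1' := abs_le.1 h1
  refine ⟨by linarith, fun k hk => ?_, fun k hk => ?_⟩
  · have hne : k ≠ l := fun h => hl (h ▸ hk)
    rcases lt_or_gt_of_ne hne with h | h
    · have := hsucc k l h
      exact lt_abs.2 (Or.inl (by linarith [h1'.1]))
    · have := hsucc l k h
      exact lt_abs.2 (Or.inr (by linarith [h1'.2]))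
  · have hne : k ≠ l := fun h => hl (h ▸ hS.c0 k hk)
    have hne' : k + 1 ≠ l := fun h => hl (h ▸ hS.c1 k hk)
    rcases lt_or_gt_of_ne hne with h | h
    · have h4 : k + 1 + 1 ≤ l := by omega
      have := hsucc (k + 1) l h4
      push_cast at this
      exact Or.inr (by linarith [h1'.1])
    · have := hsucc l k h
      exact Or.inl (by linarith [h1'.2])

theorem w1_per_int {N : ℕ} {P : Set ℤ} (hP : ∀ k, k ∈ P ↔ k + N ∈ P) (t k : ℤ) :
    k ∈ P ↔ k + t * N ∈ P := by
  induction t using Int.induction_on with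
  | zero => simp
  | succ i ih =>
    rw [ih, hP]
    have : k + i * N + N = k + (i + 1) * N := by ring
    rw [this]
  | pred i ih =>
    rw [ih, hP (k + (-i - 1) * N)]
    have : k + (-i - 1) * N + N = k + -i * N := by ring
    rw [this]

theorem w1_nopole_win {N : ℕ} (hN : 0 < N) {P G : Set ℤ} (hS : Shape N P G) {r w h : ℝ}
    (hrw : r < w) {z : ℂ} (hz : z ∈ US N P G w h) {l : ℤ} (hl : l ∈ P) {ζ : ℂ}
    (h1 : |ζ.re - (l : ℝ) / N| ≤ r) : Complex.sin (π * (ζ - z)) ≠ 0 := by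
  intro h0
  obtain ⟨k, hk⟩ := w1_sin_zero.1 h0
  have hN' : (N : ℝ) ≠ 0 := by
    have : (0 : ℝ) < N := by exact_mod_cast hN
    exact this.ne'
  have hl' : l + -k * N ∈ P := (w1_per_int hS.perP (-k) l).1 hl
  have h2 := hz.2.1 _ hl'
  have h3 : ζ.re = z.re + k := by
    have := congrArg Complex.re hk
    simp only [Complex.sub_re, Complex.intCast_re] at this
    linarith
  have h4 : z.re - ((l + -k * N : ℤ) : ℝ) / N = ζ.re - (l : ℝ) / N := by
    rw [h3]
    push_cast
    field_simp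
    ring
  rw [h4] at h2
  linarith

theorem w1_nopole_gap {N : ℕ} (hN : 0 < N) {P G : Set ℤ} (hS : Shape N P G) {r w h : ℝ}
    (hr : 0 < r) {z : ℂ} (hz : z ∈ US N P G w h) {l : ℤ} (hl : l ∈ G) {ζ : ℂ}
    (h1 : (l : ℝ) / N + r ≤ ζ.re) (h2 : ζ.re ≤ ((l : ℝ) + 1) / N - r) :
    Complex.sin (π * (ζ - z)) ≠ 0 := by
  intro h0
  obtain ⟨k, hk⟩ := w1_sin_zero.1 h0
  have hN' : (N : ℝ) ≠ 0 := by
    have : (0 : ℝ) < N := by exact_mod_cast hN
    exact this.ne'
  have hl' : l + -k * N ∈ G := (w1_per_int hS.perG (-k) l).1 hl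
  have h5 := hz.2.2 _ hl'
  have h3 : ζ.re = z.re + k := by
    have := congrArg Complex.re hk
    simp only [Complex.sub_re, Complex.intCast_re] at this
    linarith
  have h4 : ((l + -k * N : ℤ) : ℝ) / N = (l : ℝ) / N - k := by
    push_cast
    field_simp
    ring
  have h6 : (((l + -k * N : ℤ) : ℝ) + 1) / N = ((l : ℝ) + 1) / N - k := by
    push_cast
    field_simp
    ring
  rw [h4, h6] at h5
  rcases h5 with h | h <;> linarith

theorem w1_nopole_im {σ : ℝ} {z ζ : ℂ} (hz : |z.im| < σ) (h : |ζ.im| = σ) :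
    Complex.sin (π * (ζ - z)) ≠ 0 := by
  intro h0
  obtain ⟨k, hk⟩ := w1_sin_zero.1 h0
  have := congrArg Complex.im hk
  simp only [Complex.sub_im, Complex.intCast_im] at this
  have h2 : ζ.im = z.im := by linarith
  rw [h2] at h
  linarith

/-- points of the contour -/
theorem w1_cP {N : ℕ} (hN : 0 < N) {P G : Set ℤ} (hS : Shape N P G) {w' r w h σ h' : ℝ}
    (hw0 : 0 < w') (hwr : w' < r) (hrw : r < w) (hw : w < 1 / (4 * N)) (hhσ : h < σ)
    (hσ : σ < h') {z : ℂ} (hz : z ∈ US N P G w h) (p : Pc N) {ζ : ℂ}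
    (hζ : ζ ∈ cP N P G r σ p) : ζ ∈ US N P G w' h' ∧ Complex.sin (π * (ζ - z)) ≠ 0 := by
  have hN' : (0 : ℝ) < N := by exact_mod_cast hN
  have h4N : 1 / (4 * (N : ℝ)) = 1 / N / 4 := by field_simp
  have hzσ : |z.im| < σ := hz.1.trans hhσ
  have hr0 : 0 < r := hw0.trans hwr
  have hr1 : r < 1 / (4 * N) := hrw.trans hw
  rcases p with l | l
  · obtain ⟨h1, h2, h3, h4⟩ := hζ
    exact ⟨w1_gap_mem hN hw0 hwr hσ h1 h3 h4 h2.le, w1_nopole_im hzσ h2⟩
  · rcases hζ with (⟨h1, h2, h3⟩ | ⟨h1, h2, h3, h4⟩) | ⟨h1, h2, h3, h4⟩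
    · exact ⟨w1_win_mem hN hS hw0 hwr hr1 hσ h1 h3 h2.le, w1_nopole_im hzσ h2⟩
    · refine ⟨w1_gap_mem hN hw0 hwr hσ h2 ?_ ?_ h3, w1_nopole_win hN hS hrw hz h1 ?_⟩
      · rw [h4, h4N] at *
        push_cast
        rw [sub_div]
        linarith
      · rw [h4]
        push_cast
        rw [sub_add_cancel]
      · rw [h4]
        have : (((l : ℕ) : ℝ)) / N - r - (((l : ℕ) : ℤ) : ℝ) / N = -r := by
          push_cast
          ring
        rw [this, abs_neg, abs_of_pos hr0]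
    · refine ⟨w1_gap_mem hN hw0 hwr hσ h2 ?_ ?_ h3, w1_nopole_win hN hS hrw hz h1 ?_⟩
      · rw [h4]
        push_cast
        exact le_refl _
      · rw [h4, h4N] at *
        push_cast
        rw [add_div]
        linarith
      · rw [h4]
        have : (((l : ℕ) : ℝ)) / N + r - (((l : ℕ) : ℤ) : ℝ) / N = r := by
          push_cast
          ring
        rw [this, abs_of_pos hr0]

/-! ### linearity and congruence on the pieces -/

theorem w1_hor_lin {a b σ : ℝ} (hab : a ≤ b) (g k : ℂ → ℂ) (c : ℂ)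
    (hg : ∀ x : ℝ, a ≤ x → x ≤ b → ContinuousAt g (x - σ * Complex.I) ∧
      ContinuousAt g (x + σ * Complex.I))
    (hk : ∀ x : ℝ, a ≤ x → x ≤ b → ContinuousAt k (x - σ * Complex.I) ∧
      ContinuousAt k (x + σ * Complex.I)) :
    ∫ x in a..b, ((g (x - σ * Complex.I) + c * k (x - σ * Complex.I))
        - (g (x + σ * Complex.I) + c * k (x + σ * Complex.I)))
      = (∫ x in a..b, (g (x - σ * Complex.I) - g (x + σ * Complex.I)))
        + c * ∫ x in a..b, (k (x - σ * Complex.I) - k (x + σ * Complex.I)) := by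
  have hi : ∀ f : ℂ → ℂ, (∀ x : ℝ, a ≤ x → x ≤ b → ContinuousAt f (x - σ * Complex.I) ∧
      ContinuousAt f (x + σ * Complex.I)) →
      IntervalIntegrable (fun x : ℝ => f (x - σ * Complex.I) - f (x + σ * Complex.I)) volume a b := by
    intro f hf
    apply ContinuousOn.intervalIntegrable
    rw [Set.uIcc_of_le hab]
    intro x hx
    obtain ⟨h1, h2⟩ := hf x hx.1 hx.2
    have h3 : ContinuousAt (fun x : ℝ => (x : ℂ) - σ * Complex.I) x := by fun_prop
    have h4 : ContinuousAt (fun x : ℝ => (x : ℂ) + σ * Complex.I) x := by fun_prop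
    exact ((ContinuousAt.comp (f := fun x : ℝ => (x : ℂ) - σ * Complex.I) h1 h3).sub
      (ContinuousAt.comp (f := fun x : ℝ => (x : ℂ) + σ * Complex.I) h2 h4)).continuousWithinAt
  rw [← intervalIntegral.integral_const_mul, ← intervalIntegral.integral_add (hi g hg)
    ((hi k hk).const_mul c)]
  apply intervalIntegral.integral_congr
  intro x _
  show _ = _
  ring

theorem w1_ver_lin {a σ : ℝ} (hσ : 0 ≤ σ) (g k : ℂ → ℂ) (c : ℂ)
    (hg : ∀ y : ℝ, |y| ≤ σ → ContinuousAt g ((a : ℝ) + y * Complex.I))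
    (hk : ∀ y : ℝ, |y| ≤ σ → ContinuousAt k ((a : ℝ) + y * Complex.I)) :
    Complex.I * ∫ y in (-σ)..σ, (g ((a : ℝ) + y * Complex.I) + c * k ((a : ℝ) + y * Complex.I))
      = Complex.I * (∫ y in (-σ)..σ, g ((a : ℝ) + y * Complex.I))
        + c * (Complex.I * ∫ y in (-σ)..σ, k ((a : ℝ) + y * Complex.I)) := by
  have hi : ∀ f : ℂ → ℂ, (∀ y : ℝ, |y| ≤ σ → ContinuousAt f ((a : ℝ) + y * Complex.I)) →
      IntervalIntegrable (fun y : ℝ => f ((a : ℝ) + y * Complex.I)) volume (-σ) σ := by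
    intro f hf
    apply ContinuousOn.intervalIntegrable
    rw [Set.uIcc_of_le (by linarith)]
    intro y hy
    have h1 := hf y (abs_le.2 hy)
    have h3 : ContinuousAt (fun y : ℝ => ((a : ℝ) : ℂ) + y * Complex.I) y := by fun_prop
    exact (ContinuousAt.comp (f := fun y : ℝ => ((a : ℝ) : ℂ) + y * Complex.I)
      h1 h3).continuousWithinAt
  rw [intervalIntegral.integral_add (hi g hg) ((hi k hk).const_mul c),
    intervalIntegral.integral_const_mul]
  ring

/-- the points of the pieces -/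
theorem w1_pt {N : ℕ} {P G : Set ℤ} {r σ : ℝ} (hσ0 : 0 ≤ σ) (Q : ℂ → Prop) (p : Pc N)
    (hr : 0 ≤ r) (hQ : ∀ ζ ∈ cP N P G r σ p, Q ζ) :
    (∀ l : Fin N, p = Sum.inl l → ((l : ℕ) : ℤ) ∉ G → ∀ x : ℝ,
      (((l : ℕ) : ℤ) : ℝ) / N + r ≤ x → x ≤ ((((l : ℕ) : ℤ) : ℝ) + 1) / N - r →
        Q (x - σ * Complex.I) ∧ Q (x + σ * Complex.I)) ∧
    (∀ l : Fin N, p = Sum.inr l → ((l : ℕ) : ℤ) ∉ P → ∀ x : ℝ,
      (((l : ℕ) : ℤ) : ℝ) / N - r ≤ x → x ≤ (((l : ℕ) : ℤ) : ℝ) / N + r →
        Q (x - σ * Complex.I) ∧ Q (x + σ * Complex.I)) ∧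
    (∀ l : Fin N, p = Sum.inr l → ((l : ℕ) : ℤ) ∈ P → ((l : ℕ) : ℤ) - 1 ∉ G → ∀ y : ℝ, |y| ≤ σ →
        Q ((((((l : ℕ) : ℤ) : ℝ) / N - r : ℝ) : ℂ) + y * Complex.I)) ∧
    (∀ l : Fin N, p = Sum.inr l → ((l : ℕ) : ℤ) ∈ P → ((l : ℕ) : ℤ) ∉ G → ∀ y : ℝ, |y| ≤ σ →
        Q ((((((l : ℕ) : ℤ) : ℝ) / N + r : ℝ) : ℂ) + y * Complex.I)) := by
  refine ⟨?_, ?_, ?_, ?_⟩
  · rintro l rfl hl x h1 h2
    push_cast at h1 h2
    constructor <;> apply hQ
    · refine ⟨hl, ?_, ?_, ?_⟩
      · simp [abs_of_nonneg hσ0]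
      · simpa using h1
      · simpa using h2
    · refine ⟨hl, ?_, ?_, ?_⟩
      · simp [abs_of_nonneg hσ0]
      · simpa using h1
      · simpa using h2
  · rintro l rfl hl x h1 h2
    push_cast at h1 h2
    have h3 : |x - ((l : ℕ) : ℝ) / N| ≤ r := abs_le.2 ⟨by linarith, by linarith⟩
    constructor <;> apply hQ
    · refine Or.inl (Or.inl ⟨hl, ?_, ?_⟩)
      · simp [abs_of_nonneg hσ0]
      · simpa using h3
    · refine Or.inl (Or.inl ⟨hl, ?_, ?_⟩)
      · simp [abs_of_nonneg hσ0]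
      · simpa using h3
  · rintro l rfl hl hl1 y hy
    apply hQ
    refine Or.inl (Or.inr ⟨hl, hl1, ?_, ?_⟩)
    · have e : ((((((l : ℕ) : ℤ) : ℝ) / N - r : ℝ) : ℂ) + y * Complex.I).im = y := by
        rw [Complex.add_im, Complex.ofReal_im]
        simp
      rw [e]
      exact hy
    · have e : ((((((l : ℕ) : ℤ) : ℝ) / N - r : ℝ) : ℂ) + y * Complex.I).re
          = (((l : ℕ) : ℤ) : ℝ) / N - r := by
        rw [Complex.add_re, Complex.ofReal_re]
        simp
      rw [e]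
      push_cast
      rfl
  · rintro l rfl hl hl1 y hy
    apply hQ
    refine Or.inr ⟨hl, hl1, ?_, ?_⟩
    · have e : ((((((l : ℕ) : ℤ) : ℝ) / N + r : ℝ) : ℂ) + y * Complex.I).im = y := by
        rw [Complex.add_im, Complex.ofReal_im]
        simp
      rw [e]
      exact hy
    · have e : ((((((l : ℕ) : ℤ) : ℝ) / N + r : ℝ) : ℂ) + y * Complex.I).re
          = (((l : ℕ) : ℤ) : ℝ) / N + r := by
        rw [Complex.add_re, Complex.ofReal_re]
        simp
      rw [e]
      push_cast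
      rfl

theorem w1_le {N : ℕ} (hN : 0 < N) {r : ℝ} (hr : r < 1 / (4 * N)) (l : ℤ) (hr0 : 0 < r) :
    (l : ℝ) / N + r ≤ ((l : ℝ) + 1) / N - r := by
  have hN' : (0 : ℝ) < N := by exact_mod_cast hN
  have h4N : 1 / (4 * (N : ℝ)) = 1 / N / 4 := by field_simp
  rw [h4N] at hr
  rw [add_div]
  linarith

theorem w1_congr {N : ℕ} (hN : 0 < N) {P G : Set ℤ} {r σ : ℝ} (hr : 0 < r)
    (hr1 : r < 1 / (4 * N)) (hσ0 : 0 < σ) (g k : ℂ → ℂ) (p : Pc N)
    (hgk : ∀ ζ ∈ cP N P G r σ p, g ζ = k ζ) : pI N P G r σ p g = pI N P G r σ p k := by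
  classical
  obtain ⟨q1, q2, q3, q4⟩ := w1_pt hσ0.le (fun ζ => g ζ = k ζ) p hr.le hgk
  rcases p with l | l
  · simp only [pI]
    split_ifs with h
    · rfl
    · unfold gapI
      apply intervalIntegral.integral_congr
      intro x hx
      rw [Set.uIcc_of_le (w1_le hN hr1 _ hr)] at hx
      have := q1 l rfl h x hx.1 hx.2
      show _ - _ = _ - _
      rw [this.1, this.2]
  · simp only [pI]
    by_cases hP : ((l : ℕ) : ℤ) ∈ P
    · rw [if_pos hP, if_pos hP]
      congr 1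
      · split_ifs with h
        · rfl
        · unfold verL
          congr 1
          apply intervalIntegral.integral_congr
          intro y hy
          rw [Set.uIcc_of_le (by linarith)] at hy
          exact q3 l rfl hP h y (abs_le.2 hy)
      · split_ifs with h
        · rfl
        · unfold verR
          congr 1
          apply intervalIntegral.integral_congr
          intro y hy
          rw [Set.uIcc_of_le (by linarith)] at hy
          exact q4 l rfl hP h y (abs_le.2 hy)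
    · rw [if_neg hP, if_neg hP]
      unfold capI
      apply intervalIntegral.integral_congr
      intro x hx
      rw [Set.uIcc_of_le (by linarith)] at hx
      have := q2 l rfl hP x hx.1 hx.2
      show _ - _ = _ - _
      rw [this.1, this.2]

theorem w1_lin {N : ℕ} (hN : 0 < N) {P G : Set ℤ} {r σ : ℝ} (hr : 0 < r)
    (hr1 : r < 1 / (4 * N)) (hσ0 : 0 < σ) (g k : ℂ → ℂ) (c : ℂ) (p : Pc N)
    (hg : ∀ ζ ∈ cP N P G r σ p, ContinuousAt g ζ) (hk : ∀ ζ ∈ cP N P G r σ p, ContinuousAt k ζ) :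
    pI N P G r σ p (fun ζ => g ζ + c * k ζ) = pI N P G r σ p g + c * pI N P G r σ p k := by
  classical
  obtain ⟨q1, q2, q3, q4⟩ := w1_pt hσ0.le (fun ζ => ContinuousAt g ζ) p hr.le hg
  obtain ⟨t1, t2, t3, t4⟩ := w1_pt hσ0.le (fun ζ => ContinuousAt k ζ) p hr.le hk
  rcases p with l | l
  · simp only [pI]
    split_ifs with h
    · ring
    · exact w1_hor_lin (w1_le hN hr1 _ hr) g k c (q1 l rfl h) (t1 l rfl h)
  · simp only [pI]
    by_cases hP : ((l : ℕ) : ℤ) ∈ P
    · rw [if_pos hP, if_pos hP, if_pos hP]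
      by_cases h1 : ((l : ℕ) : ℤ) - 1 ∈ G <;> by_cases h2 : ((l : ℕ) : ℤ) ∈ G
      · rw [if_pos h1, if_pos h1, if_pos h1, if_pos h2, if_pos h2, if_pos h2]
        ring
      · rw [if_pos h1, if_pos h1, if_pos h1, if_neg h2, if_neg h2, if_neg h2]
        have := w1_ver_lin hσ0.le g k c (q4 l rfl hP h2) (t4 l rfl hP h2)
        unfold verR
        rw [this]
        ring
      · rw [if_neg h1, if_neg h1, if_neg h1, if_pos h2, if_pos h2, if_pos h2]
        have := w1_ver_lin hσ0.le g k c (q3 l rfl hP h1) (t3 l rfl hP h1)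
        unfold verL
        rw [this]
        ring
      · rw [if_neg h1, if_neg h1, if_neg h1, if_neg h2, if_neg h2, if_neg h2]
        have e1 := w1_ver_lin hσ0.le g k c (q4 l rfl hP h2) (t4 l rfl hP h2)
        have e2 := w1_ver_lin hσ0.le g k c (q3 l rfl hP h1) (t3 l rfl hP h1)
        unfold verL verR
        rw [e1, e2]
        ring
    · rw [if_neg hP, if_neg hP, if_neg hP]
      exact w1_hor_lin (by linarith) g k c (q2 l rfl hP) (t2 l rfl hP)

/-! ### removing the singularity -/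

/-- regularized `sin (π t) / t` -/
def w1_s : ℂ → ℂ := dslope (fun t : ℂ => Complex.sin (π * t)) 0

theorem w1_s_deriv : deriv (fun t : ℂ => Complex.sin (π * t)) 0 = π := by
  have h1 : HasDerivAt (fun t : ℂ => (π : ℂ) * t) (π * 1) 0 := (hasDerivAt_id (0 : ℂ)).const_mul _
  have h2 := h1.csin
  rw [h2.deriv]
  simp

theorem w1_s_zero : w1_s 0 = π := by
  unfold w1_s
  rw [dslope_same, w1_s_deriv]

theorem w1_s_cont : ContinuousAt w1_s 0 := by
  unfold w1_s
  rw [continuousAt_dslope_same]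
  fun_prop

theorem w1_s_ne {t : ℂ} (ht : t ≠ 0) : w1_s t = Complex.sin (π * t) / t := by
  unfold w1_s
  rw [dslope_of_ne _ ht, slope_def_field]
  simp

/-- regularized `(f ζ - f z) κ (ζ - z)` near `z` -/
def w1_phi (f : ℂ → ℂ) (z ζ : ℂ) : ℂ :=
  dslope f z ζ * Complex.cos (π * (ζ - z)) / (2 * Complex.I * w1_s (ζ - z))

open Classical in
/-- regularized `(f ζ - f z) κ (ζ - z)` -/
def w1_g (f : ℂ → ℂ) (z ζ : ℂ) : ℂ :=
  if Complex.sin (π * (ζ - z)) = 0 then w1_phi f z z else (f ζ - f z) * kap (ζ - z)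

theorem w1_g_ne (f : ℂ → ℂ) {z ζ : ℂ} (h : Complex.sin (π * (ζ - z)) ≠ 0) :
    w1_g f z ζ = (f ζ - f z) * kap (ζ - z) := by
  unfold w1_g
  rw [if_neg h]

theorem w1_g_diff {f : ℂ → ℂ} {U : Set ℂ} (hU : IsOpen U) (hf : DifferentiableOn ℂ f U) {z ζ : ℂ}
    (hζ : ζ ∈ U) (h : Complex.sin (π * (ζ - z)) ≠ 0) : DifferentiableAt ℂ (w1_g f z) ζ := by
  have hc : ContinuousAt (fun ζ : ℂ => Complex.sin (π * (ζ - z))) ζ := by fun_prop
  have h1 : w1_g f z =ᶠ[𝓝 ζ] fun ζ => (f ζ - f z) * kap (ζ - z) := by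
    filter_upwards [hc.eventually_ne h] with ζ' h'
    exact w1_g_ne f h'
  have h2 : DifferentiableAt ℂ (fun ζ => (f ζ - f z) * kap (ζ - z)) ζ := by
    apply DifferentiableAt.mul
    · exact ((hf ζ hζ).differentiableAt (hU.mem_nhds hζ)).sub_const _
    · have h3 : DifferentiableAt ℂ kap (ζ - z) := w1_kap_diff h
      exact DifferentiableAt.comp (f := fun ζ : ℂ => ζ - z) ζ h3 (by fun_prop)
  exact h2.congr_of_eventuallyEq h1

theorem w1_g_cont_z {f : ℂ → ℂ} {z : ℂ} (hf : DifferentiableAt ℂ f z) :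
    ContinuousAt (w1_g f z) z := by
  have h1 : w1_g f z =ᶠ[𝓝 z] w1_phi f z := by
    filter_upwards [Metric.ball_mem_nhds z one_pos] with ζ hζ
    by_cases h0 : ζ = z
    · subst h0
      unfold w1_g
      rw [if_pos (by simp)]
    · have hne : ζ - z ≠ 0 := sub_ne_zero.2 h0
      have hsin : Complex.sin (π * (ζ - z)) ≠ 0 := by
        intro h
        obtain ⟨k, hk⟩ := w1_sin_zero.1 h
        rw [Metric.mem_ball, dist_eq_norm, hk, Complex.norm_intCast] at hζ
        have hk0 : k = 0 := by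
          have h2 : |k| < 1 := by exact_mod_cast hζ
          have := abs_lt.1 h2
          omega
        rw [hk0, Int.cast_zero] at hk
        exact hne hk
      rw [w1_g_ne f hsin]
      unfold w1_phi
      rw [w1_s_ne hne, dslope_of_ne _ h0, slope_def_field, w1_kap_eq]
      have hI := Complex.I_ne_zero
      field_simp
  refine ContinuousAt.congr ?_ h1.symm
  unfold w1_phi
  apply ContinuousAt.div
  · apply ContinuousAt.mul
    · exact continuousAt_dslope_same.2 hf
    · fun_prop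
  · apply ContinuousAt.mul continuousAt_const
    have h2 : ContinuousAt w1_s (z - z) := by
      rw [sub_self]
      exact w1_s_cont
    exact ContinuousAt.comp (f := fun ζ : ℂ => ζ - z) h2 (by fun_prop)
  · rw [sub_self, w1_s_zero]
    have hpi : (π : ℂ) ≠ 0 := by exact_mod_cast Real.pi_ne_zero
    exact mul_ne_zero (mul_ne_zero two_ne_zero Complex.I_ne_zero) hpi

theorem w1_per_all {U : Set ℂ} (hU : Per U) {f : ℂ → ℂ} (hf : ∀ z ∈ U, f (z + 1) = f z) (k : ℤ) :
    ∀ z ∈ U, z + k ∈ U ∧ f (z + k) = f z := by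
  induction k using Int.induction_on with
  | zero =>
    intro z hz
    simpa using hz
  | succ i ih =>
    intro z hz
    obtain ⟨h1, h2⟩ := ih z hz
    have e : z + ((i + 1 : ℤ) : ℂ) = z + (i : ℤ) + 1 := by
      push_cast
      ring
    rw [e]
    exact ⟨(hU _).1 h1, by rw [hf _ h1, h2]⟩
  | pred i ih =>
    intro z hz
    obtain ⟨h1, h2⟩ := ih z hz
    have e : z + ((-(i : ℤ) - 1 : ℤ) : ℂ) + 1 = z + ((-(i : ℤ) : ℤ) : ℂ) := by
      push_cast
      ring
    have h3 : z + ((-(i : ℤ) - 1 : ℤ) : ℂ) ∈ U := by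
      rw [hU, e]
      exact h1
    refine ⟨h3, ?_⟩
    rw [← hf _ h3, e, h2]

theorem w1_kap_per_int (k : ℤ) (ζ : ℂ) : kap (ζ + k) = kap ζ :=
  (w1_per_all (U := Set.univ) (fun _ => by simp) (fun z _ => w1_kap_per z) k ζ trivial).2

theorem w1_sin_per_int (k : ℤ) (ζ : ℂ) :
    Complex.sin (π * (ζ + k)) = 0 ↔ Complex.sin (π * ζ) = 0 := by
  rw [w1_sin_zero, w1_sin_zero]
  constructor
  · rintro ⟨m, hm⟩
    refine ⟨m - k, ?_⟩
    push_cast
    rw [← hm]
    ring
  · rintro ⟨m, hm⟩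
    refine ⟨m + k, ?_⟩
    push_cast
    rw [← hm]

theorem w1_g_per {U : Set ℂ} (hU : Per U) {f : ℂ → ℂ} (hf : ∀ z ∈ U, f (z + 1) = f z) (z : ℂ)
    (k : ℤ) {ζ : ℂ} (hζ : ζ ∈ U) : w1_g f z (ζ + k) = w1_g f z ζ := by
  unfold w1_g
  have e : ζ + k - z = ζ - z + k := by ring
  rw [e, w1_kap_per_int, (w1_per_all hU hf k ζ hζ).2]
  by_cases h : Complex.sin (π * (ζ - z)) = 0
  · rw [if_pos h, if_pos ((w1_sin_per_int k _).2 h)]
  · rw [if_neg h, if_neg (fun h' => h ((w1_sin_per_int k _).1 h'))]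

theorem w1_g_cont {f : ℂ → ℂ} {U : Set ℂ} (hU : IsOpen U) (hP : Per U)
    (hf : DifferentiableOn ℂ f U) (hfp : ∀ z ∈ U, f (z + 1) = f z) {z ζ : ℂ}
    (hζ : ζ ∈ U) : ContinuousAt (w1_g f z) ζ := by
  by_cases h : Complex.sin (π * (ζ - z)) = 0
  · obtain ⟨k, hk⟩ := w1_sin_zero.1 h
    have e : ζ = z + k := by
      rw [← hk]
      ring
    have hz : z ∈ U := by
      have := (w1_per_all hP hfp (-k) ζ hζ).1
      rw [e] at this
      have e2 : z + (k : ℂ) + ((-k : ℤ) : ℂ) = z := by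
        push_cast
        ring
      rwa [e2] at this
    have h1 := w1_g_cont_z ((hf z hz).differentiableAt (hU.mem_nhds hz))
    have h2 : w1_g f z =ᶠ[𝓝 ζ] fun ζ' => w1_g f z (ζ' + ((-k : ℤ) : ℂ)) := by
      filter_upwards [hU.mem_nhds hζ] with ζ' hζ'
      exact (w1_g_per hP hfp z (-k) hζ').symm
    refine ContinuousAt.congr ?_ h2.symm
    have h3 : ContinuousAt (w1_g f z) (ζ + ((-k : ℤ) : ℂ)) := by
      have e2 : ζ + ((-k : ℤ) : ℂ) = z := by
        rw [e]
        push_cast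
        ring
      rw [e2]
      exact h1
    exact ContinuousAt.comp (f := fun ζ' : ℂ => ζ' + ((-k : ℤ) : ℂ)) h3 (by fun_prop)
  · exact (w1_g_diff hU hf hζ h).continuousAt

/-! ### the two sums -/

theorem w1_poles_countable (z : ℂ) : {ζ : ℂ | Complex.sin (π * (ζ - z)) = 0}.Countable := by
  have : {ζ : ℂ | Complex.sin (π * (ζ - z)) = 0} ⊆ Set.range (fun k : ℤ => z + (k : ℂ)) := by
    intro ζ hζ
    obtain ⟨k, hk⟩ := w1_sin_zero.1 hζ
    exact ⟨k, by show z + (k : ℂ) = ζ; rw [← hk]; ring⟩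
  exact (Set.countable_range _).mono this

theorem w1_kap_cont {ζ z : ℂ} (h : Complex.sin (π * (ζ - z)) ≠ 0) :
    DifferentiableAt ℂ (fun ζ => kap (ζ - z)) ζ :=
  DifferentiableAt.comp (f := fun ζ : ℂ => ζ - z) ζ (w1_kap_diff h) (by fun_prop)

theorem w1_total {N : ℕ} (hN : 0 < N) {r σ : ℝ} (hr : 0 < r) (hr1 : r < 1 / (4 * N)) {z : ℂ}
    (hz : |z.im| < σ) : ∑ l ∈ Finset.range N, (gapI N r σ l (fun ζ => kap (ζ - z))
      + capI N r σ l (fun ζ => kap (ζ - z))) = 1 := by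
  have hN' : (0 : ℝ) < N := by exact_mod_cast hN
  have hσ : 0 < σ := lt_of_le_of_lt (abs_nonneg _) hz
  have hz' := abs_lt.1 hz
  set Φ : ℝ → ℂ := fun x => kap ((x : ℂ) - σ * Complex.I - z) - kap ((x : ℂ) + σ * Complex.I - z)
    with hΦ
  have hcont : Continuous Φ := by
    rw [continuous_iff_continuousAt]
    intro x
    have h1 : Complex.sin (π * ((x : ℂ) - σ * Complex.I - z)) ≠ 0 :=
      w1_nopole_im hz (by simp [abs_of_pos hσ])
    have h2 : Complex.sin (π * ((x : ℂ) + σ * Complex.I - z)) ≠ 0 :=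
      w1_nopole_im hz (by simp [abs_of_pos hσ])
    have h3 : ContinuousAt (fun x : ℝ => (x : ℂ) - σ * Complex.I - z) x := by fun_prop
    have h4 : ContinuousAt (fun x : ℝ => (x : ℂ) + σ * Complex.I - z) x := by fun_prop
    exact (ContinuousAt.comp (f := fun x : ℝ => (x : ℂ) - σ * Complex.I - z)
      (w1_kap_diff h1).continuousAt h3).sub
      (ContinuousAt.comp (f := fun x : ℝ => (x : ℂ) + σ * Complex.I - z)
      (w1_kap_diff h2).continuousAt h4)
  have hper : Function.Periodic Φ 1 := by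
    intro x
    rw [hΦ]
    show kap _ - kap _ = kap _ - kap _
    have e1 : (((x + 1 : ℝ) : ℂ)) - σ * Complex.I - z = (x : ℂ) - σ * Complex.I - z + 1 := by
      push_cast
      ring
    have e2 : (((x + 1 : ℝ) : ℂ)) + σ * Complex.I - z = (x : ℂ) + σ * Complex.I - z + 1 := by
      push_cast
      ring
    rw [e1, e2, w1_kap_per, w1_kap_per]
  have hi : ∀ a b : ℝ, IntervalIntegrable Φ volume a b := fun a b => hcont.intervalIntegrable a b
  set a : ℕ → ℝ := fun l => (l : ℝ) / N - r with ha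
  have h1 : ∀ l ∈ Finset.range N, (gapI N r σ l (fun ζ => kap (ζ - z))
      + capI N r σ l (fun ζ => kap (ζ - z))) = ∫ x in (a l)..(a (l + 1)), Φ x := by
    intro l _
    have e1 : gapI N r σ l (fun ζ => kap (ζ - z))
        = ∫ x in ((l : ℝ) / N + r)..(((l : ℝ) + 1) / N - r), Φ x := by
      unfold gapI
      push_cast
      rfl
    have e2 : capI N r σ l (fun ζ => kap (ζ - z))
        = ∫ x in ((l : ℝ) / N - r)..((l : ℝ) / N + r), Φ x := by
      unfold capI
      push_cast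
      rfl
    rw [e1, e2, add_comm, intervalIntegral.integral_add_adjacent_intervals (hi _ _) (hi _ _)]
    simp only [ha]
    push_cast
    rfl
  rw [Finset.sum_congr rfl h1, intervalIntegral.sum_integral_adjacent_intervals
    (fun k _ => hi _ _)]
  have e3 : a 0 = -r := by
    simp [ha]
  have e4 : a N = -r + 1 := by
    simp only [ha]
    field_simp
    ring
  rw [e3, e4, hper.intervalIntegral_add_eq (-r) 0, zero_add]
  have e5 : ∫ x in (0 : ℝ)..1, Φ x = (∫ x in (0 : ℝ)..1, kap (x + (-(σ * Complex.I) - z)))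
      - ∫ x in (0 : ℝ)..1, kap (x + (σ * Complex.I - z)) := by
    rw [← intervalIntegral.integral_sub]
    · apply intervalIntegral.integral_congr
      intro x _
      rw [hΦ]
      show kap _ - kap _ = kap _ - kap _
      congr 2 <;> ring
    · apply Continuous.intervalIntegrable
      rw [continuous_iff_continuousAt]
      intro x
      have h1 : Complex.sin (π * ((x : ℂ) - σ * Complex.I - z)) ≠ 0 :=
        w1_nopole_im hz (by simp [abs_of_pos hσ])
      have e : (x : ℂ) - σ * Complex.I - z = x + (-(σ * Complex.I) - z) := by ring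
      rw [e] at h1
      exact ContinuousAt.comp (f := fun x : ℝ => (x : ℂ) + (-(σ * Complex.I) - z))
        (w1_kap_diff h1).continuousAt (by fun_prop)
    · apply Continuous.intervalIntegrable
      rw [continuous_iff_continuousAt]
      intro x
      have h1 : Complex.sin (π * ((x : ℂ) + σ * Complex.I - z)) ≠ 0 :=
        w1_nopole_im hz (by simp [abs_of_pos hσ])
      have e : (x : ℂ) + σ * Complex.I - z = x + (σ * Complex.I - z) := by ring
      rw [e] at h1
      exact ContinuousAt.comp (f := fun x : ℝ => (x : ℂ) + (σ * Complex.I - z))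
        (w1_kap_diff h1).continuousAt (by fun_prop)
  have hA : ((-(σ * Complex.I) - z : ℂ)).im < 0 := by
    simp
    linarith [hz'.1]
  have hB : 0 < ((σ * Complex.I - z : ℂ)).im := by
    simp
    linarith [hz'.2]
  rw [e5, w1_kint' hA, w1_kint hB]
  norm_num

theorem st_W1 : ST_W1 := by
  intro N P G w' r w h σ h' hN hS hw0 hwr hrw hw hh hhσ hσ f hf hfp z hz
  have hN' : (0 : ℝ) < N := by exact_mod_cast hN
  have hr0 : 0 < r := hw0.trans hwr
  have hr1 : r < 1 / (4 * N) := hrw.trans hw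
  have hσ0 : 0 < σ := hh.trans hhσ
  have hzσ : |z.im| < σ := hz.1.trans hhσ
  have hUo : IsOpen (US N P G w' h') := isOpen_US hN P G w' h'
  have hUp : Per (US N P G w' h') := hS.per_US hN w' h'
  have hcP : ∀ (p : Pc N) (ζ : ℂ), ζ ∈ cP N P G r σ p →
      ζ ∈ US N P G w' h' ∧ Complex.sin (π * (ζ - z)) ≠ 0 := fun p ζ hζ =>
    w1_cP hN hS hw0 hwr hrw hw hhσ hσ hz p hζ
  -- step 1: splitting
  have h1 : ∀ p : Pc N, pI N P G r σ p (fun ζ => f ζ * kap (ζ - z))
      = pI N P G r σ p (w1_g f z) + f z * pI N P G r σ p (fun ζ => kap (ζ - z)) := by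
    intro p
    rw [← w1_lin hN hr0 hr1 hσ0 (w1_g f z) (fun ζ => kap (ζ - z)) (f z) p
      (fun ζ hζ => w1_g_cont hUo hUp hf hfp (hcP p ζ hζ).1)
      (fun ζ hζ => (w1_kap_cont (hcP p ζ hζ).2).continuousAt)]
    apply w1_congr hN hr0 hr1 hσ0
    intro ζ hζ
    rw [w1_g_ne f (hcP p ζ hζ).2]
    ring
  rw [Finset.sum_congr rfl fun p _ => h1 p, Finset.sum_add_distrib, ← Finset.mul_sum]
  -- step 2: the regular part
  have hgap : ∀ (l : ℤ) (ζ : ℂ), l ∉ G → (l : ℝ) / N + r ≤ ζ.re → ζ.re ≤ ((l : ℝ) + 1) / N - r →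
      |ζ.im| ≤ σ → ζ ∈ US N P G w' h' := fun l ζ hl a b c => w1_gap_mem hN hw0 hwr hσ hl a b c
  have hwin : ∀ (l : ℤ) (ζ : ℂ), l ∉ P → (l : ℝ) / N - r ≤ ζ.re → ζ.re ≤ (l : ℝ) / N + r →
      |ζ.im| ≤ σ → ζ ∈ US N P G w' h' := fun l ζ hl a b c =>
    w1_win_mem hN hS hw0 hwr hr1 hσ hl (abs_le.2 ⟨by linarith, by linarith⟩) c
  have h2 : ∑ p : Pc N, pI N P G r σ p (w1_g f z) = 0 := by
    apply w1_tel0 hS
    · intro l _ hl
      unfold gapI verR verL
      rw [w1_rect (w1_le hN hr1 _ hr0) hσ0.le (w1_g f z) _ (w1_poles_countable z)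
        (fun ζ a b c => w1_g_cont hUo hUp hf hfp (hgap l ζ hl a b c))
        (fun ζ a b c d => w1_g_diff hUo hf (hgap l ζ hl a b c) d)]
      push_cast
      rfl
    · intro l _ hl
      unfold capI verR verL
      rw [w1_rect (by linarith) hσ0.le (w1_g f z) _ (w1_poles_countable z)
        (fun ζ a b c => w1_g_cont hUo hUp hf hfp (hwin l ζ hl a b c))
        (fun ζ a b c d => w1_g_diff hUo hf (hwin l ζ hl a b c) d)]
    · intro hl
      unfold verL
      congr 1
      apply intervalIntegral.integral_congr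
      intro y hy
      rw [Set.uIcc_of_le (by linarith)] at hy
      have hl' : (-1 : ℤ) ∉ G := by
        intro h
        apply hl
        have := (hS.perG (-1)).1 h
        have e : (-1 : ℤ) + N = N - 1 := by ring
        rwa [e] at this
      have e1 : ((((((N : ℕ) : ℤ) : ℝ) / N - r : ℝ) : ℂ) + y * Complex.I)
          = (((((0 : ℤ) : ℝ) / N - r : ℝ) : ℂ) + y * Complex.I) + ((1 : ℤ) : ℂ) := by
        have hNc : (N : ℂ) ≠ 0 := by exact_mod_cast hN.ne'
        push_cast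
        rw [div_self hNc]
        ring
      show w1_g f z _ = w1_g f z _
      rw [e1]
      apply w1_g_per hUp hfp z 1
      have him : ((((((0 : ℤ) : ℝ) / N - r : ℝ) : ℂ) + y * Complex.I)).im = y := by
        rw [Complex.add_im, Complex.ofReal_im]
        simp
      have hre : ((((((0 : ℤ) : ℝ) / N - r : ℝ) : ℂ) + y * Complex.I)).re = -r := by
        rw [Complex.add_re, Complex.ofReal_re]
        simp
      have hle := w1_le hN hr1 (-1) hr0
      apply hgap (-1) _ hl'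
      · rw [hre]
        push_cast at hle ⊢
        rw [neg_add_cancel, zero_div] at hle
        linarith
      · rw [hre]
        push_cast
        rw [neg_add_cancel, zero_div]
        linarith
      · rw [him]
        exact abs_le.2 hy
  -- step 3: the kernel
  have h3 : ∑ p : Pc N, pI N P G r σ p (fun ζ => kap (ζ - z)) = 1 := by
    rw [w1_tel1 hS, w1_total hN hr0 hr1 hzσ]
    · intro l _ hl
      have hnp : ∀ ζ : ℂ, (((l : ℕ) : ℤ) : ℝ) / N + r ≤ ζ.re →
          ζ.re ≤ ((((l : ℕ) : ℤ) : ℝ) + 1) / N - r → Complex.sin (π * (ζ - z)) ≠ 0 :=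
        fun ζ a b => w1_nopole_gap hN hS hr0 hz hl a b
      unfold gapI verR verL
      rw [w1_rect (w1_le hN hr1 _ hr0) hσ0.le (fun ζ => kap (ζ - z)) ∅ Set.countable_empty
        (fun ζ a b _ => (w1_kap_cont (hnp ζ a b)).continuousAt)
        (fun ζ a b _ _ => w1_kap_cont (hnp ζ a b))]
      push_cast
      rfl
    · intro l _ hl
      have hnp : ∀ ζ : ℂ, (((l : ℕ) : ℤ) : ℝ) / N - r ≤ ζ.re →
          ζ.re ≤ (((l : ℕ) : ℤ) : ℝ) / N + r → Complex.sin (π * (ζ - z)) ≠ 0 :=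
        fun ζ a b => w1_nopole_win hN hS hrw hz hl (abs_le.2 ⟨by linarith, by linarith⟩)
      unfold capI verR verL
      rw [w1_rect (by linarith) hσ0.le (fun ζ => kap (ζ - z)) ∅ Set.countable_empty
        (fun ζ a b _ => (w1_kap_cont (hnp ζ a b)).continuousAt)
        (fun ζ a b _ _ => w1_kap_cont (hnp ζ a b))]
    · unfold verL
      congr 1
      apply intervalIntegral.integral_congr
      intro y _
      show kap _ = kap _
      have e1 : ((((((N : ℕ) : ℤ) : ℝ) / N - r : ℝ) : ℂ) + y * Complex.I) - z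
          = (((((0 : ℤ) : ℝ) / N - r : ℝ) : ℂ) + y * Complex.I) - z + 1 := by
        have hNc : (N : ℂ) ≠ 0 := by exact_mod_cast hN.ne'
        push_cast
        rw [div_self hNc]
        ring
      rw [e1, w1_kap_per]
  rw [h2, h3]
  ring

end

end Pool.Agent.Helper67.DO
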